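import Pool.Agent.W581.Parking.Rec

set_option autoImplicit false

open MeasureTheory ProbabilityTheory Filter Topology
open scoped ENNReal unitInterval

namespace Pool.Agent.W581.Parking

lemma step_bound {p x : ℝ} (hp0 : 0 ≤ p) (hx0 : 0 ≤ x) (hx1 : x ≤ 1) :
    2 * ((p * (1 - x / 2) + (1 - p) / (1 - x / 2)) - 1) ≤ (1 - 2 * p) * x + x ^ 2 := by
  have h1 : 0 < 1 - x / 2 := by linarith
  have h2 : 2 * ((p * (1 - x / 2) + (1 - p) / (1 - x / 2)) - 1)
      = ((1 - 2 * p) * x + p * x ^ 2 / 2) / (1 - x / 2) := by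
    rw [eq_div_iff h1.ne']
    have h3 : (1 - p) / (1 - x / 2) * (1 - x / 2) = 1 - p := div_mul_cancel₀ _ h1.ne'
    linear_combination 2 * h3
  rw [h2, div_le_iff₀ h1]
  nlinarith [mul_nonneg (sq_nonneg x) hp0, mul_nonneg (sq_nonneg x) (sub_nonneg.2 hx1)]

lemma upper_bound {p : ℝ} (hp0 : 0 ≤ p) (hp1 : p ≤ 1)
    (hf : ∀ k s, 0 ≤ s → s ≤ 1 → 0 ≤ fR p k s ∧ fR p k s ≤ 1)
    (hg : ∀ k r, 0 < r → r ≤ 1 → 0 ≤ gR p (fR p k) r) (k : ℕ) :
    ∀ x : ℝ, 0 ≤ x → x ≤ 1 → fR p k (1 - x) ≤ Real.exp (-(mR p k * x) + 2 * x ^ 2) := by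
  induction k with
  | zero =>
    intro x _ _
    simp only [fR, mR, zero_mul, neg_zero, zero_add]
    exact Real.one_le_exp (by positivity)
  | succ k ih =>
    intro x hx0 hx1
    set y : ℝ := x / 2 with hy
    have hy0 : 0 ≤ y := by positivity
    have hy1 : y ≤ 1 / 2 := by rw [hy]; linarith
    have hy2 : 0 < 1 - y := by linarith
    have hdef : fR p (k + 1) (1 - x) = (gR p (fR p k) (1 - y)) ^ 2 := by
      have : (1 + (1 - x)) / 2 = 1 - y := by rw [hy]; ring
      simp only [fR, this]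
    set F := fR p k (1 - y) with hF
    set u := fR p k 0 with hu
    set κ : ℝ := p * (1 - y) + (1 - p) / (1 - y) with hκ
    have hF01 := hf k (1 - y) hy2.le (by linarith)
    have hu01 := hf k 0 le_rfl zero_le_one
    have hgR : gR p (fR p k) (1 - y) = F * κ - (1 - p) * u * (1 / (1 - y) - 1) := rfl
    have hg0 : 0 ≤ gR p (fR p k) (1 - y) := hg k (1 - y) hy2 (by linarith)
    have hq0 : 0 ≤ 1 - p := by linarith
    have hκ0 : 0 ≤ κ := by positivity
    have hκ1 : κ * (1 - y) ≤ 1 := by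
      have : κ * (1 - y) = p * (1 - y) ^ 2 + (1 - p) := by
        rw [hκ]; field_simp
      rw [this]
      nlinarith [mul_nonneg hp0 hy0, mul_nonneg hp0 (mul_nonneg hy0 hy2.le)]
    have hFκ : F * κ ≤ 1 / (1 - y) := by
      rw [le_div_iff₀ hy2]
      calc F * κ * (1 - y) = F * (κ * (1 - y)) := by ring
        _ ≤ 1 * 1 := mul_le_mul hF01.2 hκ1 (by positivity) zero_le_one
        _ = 1 := one_mul 1
    have hinv : 1 / (1 - y) - 1 = (1 / (1 - y)) * y := by
      field_simp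
      ring
    have hG1 : gR p (fR p k) (1 - y) ≤ F * κ * (1 - (1 - p) * u * y) := by
      rw [hgR, hinv]
      have : F * κ * ((1 - p) * u * y) ≤ (1 / (1 - y)) * ((1 - p) * u * y) :=
        mul_le_mul_of_nonneg_right hFκ
          (mul_nonneg (mul_nonneg hq0 hu01.1) hy0)
      nlinarith [this]
    have hG2 : gR p (fR p k) (1 - y)
        ≤ Real.exp (-(mR p k * y) + 2 * y ^ 2) * Real.exp (κ - 1)
          * Real.exp (-((1 - p) * u * y)) := by
      have e1 : 1 - (1 - p) * u * y ≤ Real.exp (-((1 - p) * u * y)) := by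
        have := Real.add_one_le_exp (-((1 - p) * u * y))
        linarith
      have e2 : κ ≤ Real.exp (κ - 1) := by
        have := Real.add_one_le_exp (κ - 1)
        linarith
      have e3 : F ≤ Real.exp (-(mR p k * y) + 2 * y ^ 2) := ih y hy0 (by linarith)
      calc gR p (fR p k) (1 - y) ≤ F * κ * (1 - (1 - p) * u * y) := hG1
        _ ≤ F * κ * Real.exp (-((1 - p) * u * y)) :=
            mul_le_mul_of_nonneg_left e1 (mul_nonneg hF01.1 hκ0)
        _ ≤ Real.exp (-(mR p k * y) + 2 * y ^ 2) * Real.exp (κ - 1)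
              * Real.exp (-((1 - p) * u * y)) := by
            apply mul_le_mul_of_nonneg_right _ (Real.exp_pos _).le
            exact mul_le_mul e3 e2 hκ0 (Real.exp_pos _).le
    rw [hdef]
    calc (gR p (fR p k) (1 - y)) ^ 2
        ≤ (Real.exp (-(mR p k * y) + 2 * y ^ 2) * Real.exp (κ - 1)
              * Real.exp (-((1 - p) * u * y))) ^ 2 := by
          exact pow_le_pow_left₀ hg0 hG2 2
      _ = Real.exp (2 * ((-(mR p k * y) + 2 * y ^ 2) + (κ - 1) + -((1 - p) * u * y))) := by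
          rw [← Real.exp_add, ← Real.exp_add, sq, ← Real.exp_add]
          congr 1; ring
      _ ≤ Real.exp (-(mR p (k + 1) * x) + 2 * x ^ 2) := by
          apply Real.exp_le_exp.2
          have hs := step_bound (p := p) (x := x) hp0 hx0 hx1
          have hm : mR p (k + 1) = mR p k - (1 - 2 * p) + (1 - p) * u := rfl
          rw [hm]
          have hs' : 2 * (κ - 1) ≤ (1 - 2 * p) * x + x ^ 2 := by
            rw [hκ, hy]; exact hs
          have hyx : y = x / 2 := hy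
          rw [hyx]
          nlinarith [hs']

lemma mean_bound {p : ℝ} (hp0 : 0 ≤ p) (hp1 : p < 1 / 2)
    (hf : ∀ k s, 0 ≤ s → s ≤ 1 → 0 ≤ fR p k s ∧ fR p k s ≤ 1)
    (hg : ∀ k r, 0 < r → r ≤ 1 → 0 ≤ gR p (fR p k) r)
    (hm : ∀ k, mR p k ≤ mR p (k + 1)) (k : ℕ) :
    mR p k ≤ 2 + Real.log ((1 - p) / (1 - 2 * p)) := by
  have h1 := upper_bound hp0 (by linarith) hf hg k 1 zero_le_one le_rfl
  have h2 : fR p k 0 ≤ Real.exp (2 - mR p k) := by
    have e : (1 : ℝ) - 1 = 0 := by norm_num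
    rw [e] at h1
    refine h1.trans (le_of_eq ?_)
    congr 1
    ring
  have h3 : 1 - 2 * p ≤ (1 - p) * fR p k 0 := by
    have := hm k
    have hm' : mR p (k + 1) = mR p k - (1 - 2 * p) + (1 - p) * fR p k 0 := rfl
    linarith
  have h4 : 0 < 1 - 2 * p := by linarith
  have h5 : 0 < 1 - p := by linarith
  have h6 : (1 - 2 * p) / (1 - p) ≤ Real.exp (2 - mR p k) := by
    rw [div_le_iff₀ h5]
    calc 1 - 2 * p ≤ (1 - p) * fR p k 0 := h3
      _ ≤ (1 - p) * Real.exp (2 - mR p k) := mul_le_mul_of_nonneg_left h2 h5.le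
      _ = Real.exp (2 - mR p k) * (1 - p) := mul_comm _ _
  have h7 : Real.log ((1 - 2 * p) / (1 - p)) ≤ 2 - mR p k := by
    rw [Real.log_le_iff_le_exp (by positivity)]
    exact h6
  have h8 : Real.log ((1 - p) / (1 - 2 * p)) = - Real.log ((1 - 2 * p) / (1 - p)) := by
    rw [← Real.log_inv, inv_div]
  rw [h8]
  linarith

/-- `(2 + log ((1-p)/(1-2p))) (1/2-p)^γ → 0` as `p ↗ 1/2` -/
lemma limit_zero {γ : ℝ} (hγ : 0 < γ) :
    Tendsto (fun p : ℝ => (2 + Real.log ((1 - p) / (1 - 2 * p))) * (1 / 2 - p) ^ γ)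
      (𝓝[<] (1 / 2)) (𝓝 0) := by
  have hd : Tendsto (fun p : ℝ => 1 / 2 - p) (𝓝[<] (1 / 2)) (𝓝[>] 0) := by
    apply tendsto_nhdsWithin_iff.2
    constructor
    · have : Tendsto (fun p : ℝ => 1 / 2 - p) (𝓝 (1 / 2)) (𝓝 (1 / 2 - 1 / 2)) :=
        (continuous_const.sub continuous_id).tendsto _
      rw [sub_self] at this
      exact this.mono_left nhdsWithin_le_nhds
    · filter_upwards [self_mem_nhdsWithin] with p hp
      have : p < 1 / 2 := hp
      exact Set.mem_Ioi.2 (by linarith)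
  have h1 : Tendsto (fun d : ℝ => Real.log d * d ^ γ) (𝓝[>] 0) (𝓝 0) :=
    tendsto_log_mul_rpow_nhdsGT_zero hγ
  have h2 : Tendsto (fun d : ℝ => d ^ γ) (𝓝[>] 0) (𝓝 0) := by
    have h : Tendsto (fun d : ℝ => d ^ γ) (𝓝 0) (𝓝 ((0 : ℝ) ^ γ)) :=
      (Real.continuousAt_rpow_const 0 γ (Or.inr hγ.le)).tendsto
    rw [Real.zero_rpow hγ.ne'] at h
    exact h.mono_left nhdsWithin_le_nhds
  have h3 : Tendsto (fun d : ℝ => Real.log ((1 / 2 + d) / 2)) (𝓝[>] 0)
      (𝓝 (Real.log ((1 / 2 + 0) / 2))) := by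
    have hc : ContinuousAt (fun d : ℝ => Real.log ((1 / 2 + d) / 2)) 0 := by
      apply ContinuousAt.log
      · fun_prop
      · norm_num
    exact hc.tendsto.mono_left nhdsWithin_le_nhds
  have h4 : Tendsto (fun d : ℝ => 2 * d ^ γ + (Real.log ((1 / 2 + d) / 2) * d ^ γ
      - Real.log d * d ^ γ)) (𝓝[>] 0) (𝓝 (2 * 0 + (Real.log ((1 / 2 + 0) / 2) * 0 - 0))) :=
    (h2.const_mul 2).add ((h3.mul h2).sub h1)
  have h5 : (2 * 0 + (Real.log ((1 / 2 + 0) / 2) * 0 - 0) : ℝ) = 0 := by ring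
  rw [h5] at h4
  refine (h4.comp hd).congr' ?_
  filter_upwards [self_mem_nhdsWithin] with p hp
  have hp' : p < 1 / 2 := hp
  have hd0 : 0 < 1 / 2 - p := by linarith
  simp only [Function.comp]
  have e1 : (1 - p) / (1 - 2 * p) = ((1 / 2 + (1 / 2 - p)) / 2) / (1 / 2 - p) := by
    have : 1 - 2 * p ≠ 0 := by
      intro h; linarith
    field_simp
    ring
  rw [e1, Real.log_div (by
    have : (0 : ℝ) < (1 / 2 + (1 / 2 - p)) / 2 := by linarith
    exact this.ne') hd0.ne']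
  ring

end Pool.Agent.W581.Parking
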