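import Pool.Agent.W581.Parking.Analysis

set_option autoImplicit false

open MeasureTheory ProbabilityTheory Filter Topology
open scoped ENNReal unitInterval

namespace Pool.Agent.W581.Parking

variable {V : Type}

/-- all jumps are along the edges `u → r0 u`, `u → r1 u` -/
def Good (P : Past V) (ω : Env V) : Prop :=
  ∀ u x t, ω.jump u x t = P.r0 u ∨ ω.jump u x t = P.r1 u

lemma visitors_eq (P : Past V) {G : SimpleGraph V} (hG0 : ∀ u, G.Adj u (P.r0 u))
    (hG1 : ∀ u, G.Adj u (P.r1 u)) {ω : Env V} (hω : Good P ω) (t : ℕ) (s : State V)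
    (l : V → Finset V × Bool) (hs : ∀ v, s.unparked v = ((l v).1 : Set V)) (v : V) :
    visitors G ω t s v = (av P ω t l v : Set V) := by
  classical
  ext x
  simp only [visitors, av, goTo, Set.mem_ofPred_eq, Finset.coe_union, Finset.coe_filter,
    Set.mem_union]
  constructor
  · rintro ⟨u, _, hx, hj⟩
    rw [hs u] at hx
    rcases hω u x t with h | h
    · left
      have hu : P.r0.symm v = u := by rw [← hj, h, Equiv.symm_apply_apply]
      rw [hu]
      exact ⟨by simpa using hx, hj⟩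
    · right
      have hu : P.r1.symm v = u := by rw [← hj, h, Equiv.symm_apply_apply]
      rw [hu]
      exact ⟨by simpa using hx, hj⟩
  · rintro (⟨hx, hj⟩ | ⟨hx, hj⟩)
    · refine ⟨P.r0.symm v, ?_, ?_, hj⟩
      · have := hG0 (P.r0.symm v)
        rwa [Equiv.apply_symm_apply] at this
      · rw [hs]; simpa using hx
    · refine ⟨P.r1.symm v, ?_, ?_, hj⟩
      · have := hG1 (P.r1.symm v)
        rwa [Equiv.apply_symm_apply] at this
      · rw [hs]; simpa using hx

lemma state_eq (P : Past V) {G : SimpleGraph V} (hG0 : ∀ u, G.Adj u (P.r0 u))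
    (hG1 : ∀ u, G.Adj u (P.r1 u)) {ω : Env V} (hω : Good P ω) (t : ℕ) :
    ∀ v, (state G ω t).unparked v = ((ls P ω t v).1 : Set V) ∧
      ((state G ω t).free v ↔ (ls P ω t v).2 = false) := by
  classical
  induction t with
  | zero =>
    intro v
    constructor
    · have h1 : (state G ω 0).unparked v = {x | x = v ∧ ω.car v = true} := rfl
      have h2 : (ls P ω 0 v).1 = if ω.car v = true then {v} else ∅ := rfl
      rw [h1, h2]
      ext x
      by_cases hc : ω.car v = true <;> simp [hc]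
    · exact Iff.rfl
  | succ t ih =>
    intro v
    have hvis := visitors_eq P hG0 hG1 hω t (state G ω t) (ls P ω t) (fun v => (ih v).1) v
    set a := av P ω t (ls P ω t) v with ha
    have hpark : ∀ x, parks G ω t (state G ω t) v x ↔
        ((ls P ω t v).2 = false ∧ ∃ h : a.Nonempty, ω.pick v (t + 1) ⟨a, h⟩ = x) := by
      intro x
      unfold parks
      rw [(ih v).2, hvis]
      constructor
      · rintro ⟨h1, F, hF, hx⟩
        have hFa : F.1 = a := Finset.coe_injective hF
        refine ⟨h1, ?_⟩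
        have hne : a.Nonempty := hFa ▸ F.2
        refine ⟨hne, ?_⟩
        have : F = ⟨a, hne⟩ := Subtype.ext hFa
        rw [← this]; exact hx
      · rintro ⟨h1, h, hx⟩
        exact ⟨h1, ⟨a, h⟩, rfl, hx⟩
    constructor
    · have h1 : (state G ω (t + 1)).unparked v
          = {x | x ∈ visitors G ω t (state G ω t) v ∧ ¬ parks G ω t (state G ω t) v x} := rfl
      have h2 : (ls P ω (t + 1) v).1 = dep ω v t (ls P ω t v).2 a := rfl
      rw [h1, h2, hvis]
      ext x
      simp only [Set.mem_ofPred_eq, hpark, Finset.mem_coe]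
      unfold dep
      by_cases ho : (ls P ω t v).2 = true
      · simp [ho]
      · have ho' : (ls P ω t v).2 = false := by simpa using ho
        by_cases hne : a.Nonempty
        · simp only [ho', true_and, hne, exists_true_left, Bool.false_eq_true, if_false, dif_pos,
            Finset.mem_erase]
          constructor
          · rintro ⟨h1, h2⟩
            exact ⟨fun h => h2 h.symm, h1⟩
          · rintro ⟨h1, h2⟩
            exact ⟨h2, fun h => h1 h.symm⟩
        · have : a = ∅ := Finset.not_nonempty_iff_eq_empty.1 hne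
          simp [this]
    · have h1 : (state G ω (t + 1)).free v
          ↔ ((state G ω t).free v ∧ ¬ ∃ x, parks G ω t (state G ω t) v x) := Iff.rfl
      have h2 : (ls P ω (t + 1) v).2 = ((ls P ω t v).2 || decide a.Nonempty) := rfl
      rw [h1, h2, (ih v).2]
      simp only [hpark, Bool.or_eq_false_iff, decide_eq_false_iff_not]
      constructor
      · rintro ⟨h3, h4⟩
        exact ⟨h3, fun hne => h4 ⟨_, h3, hne, rfl⟩⟩
      · rintro ⟨h3, h4⟩
        exact ⟨h3, fun ⟨_, _, hne, _⟩ => h4 hne⟩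

lemma visitsUpTo_eq (P : Past V) {G : SimpleGraph V} (hG0 : ∀ u, G.Adj u (P.r0 u))
    (hG1 : ∀ u, G.Adj u (P.r1 u)) {ω : Env V} (hω : Good P ω) (v : V) (t : ℕ) :
    visitsUpTo G ω v t = (cA P ω t v : ℝ≥0∞) := by
  unfold visitsUpTo cA
  rw [Nat.cast_sum]
  refine Finset.sum_congr rfl fun s _ => ?_
  rw [visitors_eq P hG0 hG1 hω s (state G ω s) (ls P ω s)
    (fun v => (state_eq P hG0 hG1 hω s v).1) v, Set.encard_coe_eq_coe_finsetCard]
  rfl

variable [MeasurableSpace V] [DiscreteMeasurableSpace V] [Countable V]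

lemma ae_good (K : V → PMF V) (p : I) (P : Past V)
    (hK : ∀ u v, v ≠ P.r0 u → v ≠ P.r1 u → K u v = 0) :
    ∀ᵐ ω ∂(law K p), Good P ω := by
  unfold Good
  rw [ae_all_iff]; intro u
  rw [ae_all_iff]; intro x
  rw [ae_all_iff]; intro t
  have h1 : MeasurePreserving (fun ω : Env V => ω u) (law K p) (blockLaw K p u) :=
    measurePreserving_eval_infinitePi (fun u => blockLaw K p u) u
  have h2 : MeasurePreserving (fun b : Block V => b.2) (blockLaw K p u)
      (Measure.infinitePi fun _ : V × ℕ => (K u).toMeasure) := by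
    unfold blockLaw
    exact measurePreserving_snd
  have h3 : MeasurePreserving (fun j : V × ℕ → V => j (x, t))
      (Measure.infinitePi fun _ : V × ℕ => (K u).toMeasure) (K u).toMeasure :=
    measurePreserving_eval_infinitePi (fun _ : V × ℕ => (K u).toMeasure) (x, t)
  have h4 : MeasurePreserving (fun ω : Env V => ω.jump u x t) (law K p) (K u).toMeasure :=
    h3.comp (h2.comp h1)
  refine h4.quasiMeasurePreserving.ae (p := fun y => y = P.r0 u ∨ y = P.r1 u) ?_
  rw [ae_iff, PMF.toMeasure_apply_eq_zero_iff _ (MeasurableSet.of_discrete), Set.disjoint_left]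
  intro y hy hy'
  simp only [Set.mem_ofPred_eq, not_or] at hy'
  exact (PMF.mem_support_iff _ _).1 hy (hK u y hy'.1 hy'.2)

theorem EV_eq (T : Triple V) (p : I) (P : Past V) (h0 : ∀ w, T.K w (P.r0 w) = 2⁻¹)
    (h1 : ∀ w, T.K w (P.r1 w) = 2⁻¹) (hK : ∀ u v, v ≠ P.r0 u → v ≠ P.r1 u → T.K u v = 0)
    (hG0 : ∀ u, T.G.Adj u (P.r0 u)) (hG1 : ∀ u, T.G.Adj u (P.r1 u)) [Nonempty V] (v : V) :
    EV T p v = ⨆ t, ENNReal.ofReal (mR p t) := by
  unfold EV visits
  have hae : ∀ᵐ ω ∂(law T.K p), ⨆ t, visitsUpTo T.G ω v t = ⨆ t, (cA P ω t v : ℝ≥0∞) := by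
    filter_upwards [ae_good T.K p P hK] with ω hω
    exact iSup_congr fun t => visitsUpTo_eq P hG0 hG1 hω v t
  rw [lintegral_congr_ae hae, lintegral_iSup]
  · exact iSup_congr fun t => (main_rec T.K p P h0 h1 t).2.2.1 v
  · exact fun t => measurable_nat_comp (measurable_cA P t v) (fun n => (n : ℝ≥0∞))
  · intro a b hab ω
    exact Nat.cast_le.2 (cA_mono P ω v hab)

lemma mR_mono (K : V → PMF V) (p : I) (P : Past V)
    (h0 : ∀ w, K w (P.r0 w) = 2⁻¹) (h1 : ∀ w, K w (P.r1 w) = 2⁻¹) [Nonempty V] (k : ℕ) :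
    mR p k ≤ mR p (k + 1) := by
  have e1 := (main_rec K p P h0 h1 k).2.2.1 (Classical.arbitrary V)
  have e2 := (main_rec K p P h0 h1 (k + 1)).2.2.1 (Classical.arbitrary V)
  have hle : ENNReal.ofReal (mR p k) ≤ ENNReal.ofReal (mR p (k + 1)) := by
    rw [← e1, ← e2]
    exact lintegral_mono fun ω => Nat.cast_le.2 (cA_mono P ω _ (Nat.le_succ k))
  exact (ENNReal.ofReal_le_ofReal_iff (main_rec K p P h0 h1 (k + 1)).2.1).1 hle

theorem EV_le (T : Triple V) (p : I) (hp : (p : ℝ) < 1 / 2) (P : Past V)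
    (h0 : ∀ w, T.K w (P.r0 w) = 2⁻¹)
    (h1 : ∀ w, T.K w (P.r1 w) = 2⁻¹) (hK : ∀ u v, v ≠ P.r0 u → v ≠ P.r1 u → T.K u v = 0)
    (hG0 : ∀ u, T.G.Adj u (P.r0 u)) (hG1 : ∀ u, T.G.Adj u (P.r1 u)) [Nonempty V] (v : V) :
    EV T p v ≤ ENNReal.ofReal (2 + Real.log ((1 - p) / (1 - 2 * p))) := by
  rw [EV_eq T p P h0 h1 hK hG0 hG1 v]
  refine iSup_le fun t => ENNReal.ofReal_le_ofReal ?_
  exact mean_bound p.2.1 hp
    (fun k s hs0 hs1 => ⟨((main_rec T.K p P h0 h1 k).1 s hs0 hs1).1,
      ((main_rec T.K p P h0 h1 k).1 s hs0 hs1).2.1⟩)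
    (fun k r hr0 hr1 => (main_rec T.K p P h0 h1 k).2.2.2 r hr0 hr1)
    (mR_mono T.K p P h0 h1) t

end Pool.Agent.W581.Parking
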