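import Mathlib

/-!
# The parking process on transitive, unimodular, infinitely accessible triples

Definitions only.  The canonical probability space of the parking process is the product, over the
vertices `u`, of the following independent pieces of randomness (`Block`):

* `car`: whether `u` initially holds a car (probability `p`) or is a free parking spot;
* `jump (x, t)`: the vertex to which the car that started at `x` moves at time `t + 1`, if it is
  unparked at `u` at time `t`; its law is the kernel `K u`;
* `pick (t, F)`, for every time `t` and every nonempty finite set `F` of cars: the car which parks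
  at `u` at time `t` if `u` is still free and `F` is the set of the unparked cars which reach `u` at
  time `t`; it is uniform on `F`.
-/

set_option autoImplicit false

open MeasureTheory ProbabilityTheory Filter Topology
open scoped ENNReal unitInterval

namespace Pool.Agent.W581.Parking

/-- A triple `(G, K, Γ_K)`: an infinite, locally finite, connected simple graph `G`, a kernel `K`
(`K u` is a probability distribution on the vertices which charges only neighbours of `u`) and a
subgroup `Γ` of the group of the automorphisms of `G` which preserve `K`. -/
structure Triple (V : Type) where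
  /-- the graph -/
  G : SimpleGraph V
  /-- the kernel -/
  K : V → PMF V
  /-- the group -/
  Γ : Subgroup (Equiv.Perm V)
  infinite : Infinite V
  locallyFinite : ∀ u, (G.neighborSet u).Finite
  connected : G.Connected
  K_adj : ∀ u v, ¬ G.Adj u v → K u v = 0
  Γ_adj : ∀ φ ∈ Γ, ∀ u v, G.Adj (φ u) (φ v) ↔ G.Adj u v
  Γ_K : ∀ φ ∈ Γ, ∀ u v, K (φ u) (φ v) = K u v

namespace Triple

variable {V : Type} (T : Triple V)

/-- `u` is accessible from `v`: there is a path of adjacent vertices from `v` to `u` all of whose
steps have positive probability. -/
def Accessible (v u : V) : Prop :=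
  Relation.ReflTransGen (fun a b => T.G.Adj a b ∧ T.K a b ≠ 0) v u

/-- transitivity: some element of `Γ` maps `u` to `v`, for all `u`, `v`. -/
def Transitive : Prop := ∀ u v, ∃ φ ∈ T.Γ, φ u = v

/-- `Γ(u,u) v`: the orbit of `v` under the stabiliser of `u` -/
def stabOrbit (u v : V) : Set V := {w | ∃ φ ∈ T.Γ, φ u = u ∧ φ v = w}

/-- unimodularity: `|Γ(u,u) v| = |Γ(v,v) u| < ∞` for all `u`, `v`. -/
def Unimodular : Prop :=
  ∀ u v, (T.stabOrbit u v).Finite ∧ (T.stabOrbit u v).ncard = (T.stabOrbit v u).ncard

/-- infinite accessibility: for some `φ ∈ Γ` and some `u` the set `{φⁿ(u) : n ≥ 0}` is infinite and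
`u` is accessible from `φ(u)`. -/
def InfinitelyAccessible : Prop :=
  ∃ φ ∈ T.Γ, ∃ u, (Set.range fun n : ℕ => (φ ^ n) u).Infinite ∧ T.Accessible (φ u) u

end Triple

/-- nonempty finite sets of cars (a car is named after the vertex where it starts) -/
abbrev NF (V : Type) := {F : Finset V // F.Nonempty}

/-- The randomness attached to one vertex: `((car, pick), jump)`. -/
abbrev Block (V : Type) := (Bool × ((i : ℕ × NF V) → i.2.1)) × (V × ℕ → V)

/-- The sample space of the parking process. -/
abbrev Env (V : Type) := V → Block V

namespace Env

variable {V : Type} (ω : Env V)

/-- does `u` initially hold a car? -/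
def car (u : V) : Bool := (ω u).1.1

/-- the car which parks at `u` at time `t` if `u` is free and `F` is the set of cars reaching it -/
def pick (u : V) (t : ℕ) (F : NF V) : V := (ω u).1.2 (t, F)

/-- the vertex to which car `x` moves at time `t + 1` if it is unparked at `u` at time `t` -/
def jump (u x : V) (t : ℕ) : V := (ω u).2 (x, t)

end Env

/-- The state of the process at a given time: `unparked u` is the set of the unparked cars which are
at `u` (a car is named after the vertex where it starts), and `free u` says that `u` is a parking
spot in which no car has parked so far. -/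
structure State (V : Type) where
  unparked : V → Set V
  free : V → Prop

variable {V : Type}

/-- The state at time `0`. -/
def initial (ω : Env V) : State V where
  unparked u := {x | x = u ∧ ω.car u = true}
  free u := ω.car u = false

/-- The set of the cars which visit `v` at time `t + 1` if `s` is the state at time `t`: those which
are unparked at a neighbour of `v` at time `t` and move to `v`. -/
def visitors (G : SimpleGraph V) (ω : Env V) (t : ℕ) (s : State V) (v : V) : Set V :=
  {x | ∃ u, G.Adj u v ∧ x ∈ s.unparked u ∧ ω.jump u x t = v}

/-- Car `x` parks at `v` at time `t + 1`, if `s` is the state at time `t`: `v` is free, and `x` is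
the one picked among the cars which reach `v` at time `t + 1`. -/
def parks (G : SimpleGraph V) (ω : Env V) (t : ℕ) (s : State V) (v x : V) : Prop :=
  s.free v ∧ ∃ F : NF V, (F.1 : Set V) = visitors G ω t s v ∧ ω.pick v (t + 1) F = x

/-- One time step, from time `t` to time `t + 1`. -/
def step (G : SimpleGraph V) (ω : Env V) (t : ℕ) (s : State V) : State V where
  unparked v := {x | x ∈ visitors G ω t s v ∧ ¬ parks G ω t s v x}
  free v := s.free v ∧ ¬ ∃ x, parks G ω t s v x

/-- The state at time `t`. -/
def state (G : SimpleGraph V) (ω : Env V) : ℕ → State V
  | 0 => initial ω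
  | t + 1 => step G ω t (state G ω t)

/-- `V_t^{(v)}`: the number of visits to `v` during the times `1, …, t`. -/
noncomputable def visitsUpTo (G : SimpleGraph V) (ω : Env V) (v : V) (t : ℕ) : ℝ≥0∞ :=
  ∑ s ∈ Finset.range t, ((visitors G ω s (state G ω s) v).encard : ℝ≥0∞)

/-- `V^{(v)}`: the number of visits to `v`, the limit of the nondecreasing `V_t^{(v)}`. -/
noncomputable def visits (G : SimpleGraph V) (ω : Env V) (v : V) : ℝ≥0∞ :=
  ⨆ t, visitsUpTo G ω v t

section Law

variable [MeasurableSpace V]

/-- the uniform distribution on the nonempty finite set `F` -/
noncomputable def uniformPick (F : NF V) : Measure F.1 :=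
  haveI : Nonempty F.1 := F.2.to_subtype
  (PMF.uniformOfFintype F.1).toMeasure

instance (F : NF V) : IsProbabilityMeasure (uniformPick F) := by
  unfold uniformPick
  infer_instance

/-- The law of the randomness attached to the vertex `u`: all components are independent, `car` is
`true` with probability `p`, `pick (t, F)` is uniform on `F` and `jump (x, t)` has law `K u`. -/
noncomputable def blockLaw (K : V → PMF V) (p : I) (u : V) : Measure (Block V) :=
  (Ber(true, false, p).prod (Measure.infinitePi fun i : ℕ × NF V => uniformPick i.2)).prod
    (Measure.infinitePi fun _ : V × ℕ => (K u).toMeasure)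

instance (K : V → PMF V) (p : I) (u : V) : IsProbabilityMeasure (blockLaw K p u) := by
  unfold blockLaw
  infer_instance

/-- The law of the environment: the vertices are independent. -/
noncomputable def law (K : V → PMF V) (p : I) : Measure (Env V) :=
  Measure.infinitePi fun u => blockLaw K p u

instance (K : V → PMF V) (p : I) : IsProbabilityMeasure (law K p) := by
  unfold law
  infer_instance

/-- `E_p V^{(v)}`: the expected number of visits to `v` at density `p`. -/
noncomputable def EV (T : Triple V) (p : I) (v : V) : ℝ≥0∞ :=
  ∫⁻ ω, visits T.G ω v ∂(law T.K p)

end Law

/-- the density `1/2` -/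
noncomputable def half : I := ⟨1 / 2, by norm_num, by norm_num⟩

end Pool.Agent.W581.Parking
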