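import Pool.Agent.W581.Parking.LocalProb

set_option autoImplicit false

open MeasureTheory ProbabilityTheory Filter Topology
open scoped ENNReal unitInterval

namespace Pool.Agent.W581.Parking

variable {V : Type} [MeasurableSpace V] [DiscreteMeasurableSpace V] [Countable V]

/-- law of the jumps at one vertex -/
noncomputable def jumpLaw (κ : PMF V) : Measure (V × ℕ → V) :=
  Measure.infinitePi fun _ => κ.toMeasure

instance (κ : PMF V) : IsProbabilityMeasure (jumpLaw κ) := by
  unfold jumpLaw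
  infer_instance

open Classical in
lemma one_jump (κ : PMF V) (v : V) (hv : κ v = 2⁻¹) (s : ℝ≥0∞) :
    ∫⁻ y, (if y = v then s else 1) ∂κ.toMeasure = (1 + s) / 2 := by
  have h1 : ∀ y, (if y = v then s else 1)
      = ({v} : Set V).indicator (fun _ => s) y + ({v}ᶜ : Set V).indicator (fun _ => 1) y := by
    intro y
    by_cases h : y = v <;> simp [h]
  have h2 : κ.toMeasure {v} = 2⁻¹ := by
    rw [PMF.toMeasure_apply_singleton _ _ (MeasurableSet.singleton v), hv]
  have h3 : κ.toMeasure {v}ᶜ = 2⁻¹ := by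
    rw [prob_compl_eq_one_sub (MeasurableSet.singleton v), h2, ENNReal.one_sub_inv_two]
  simp_rw [h1]
  rw [lintegral_add_left (Measurable.of_discrete), lintegral_indicator_const
    (MeasurableSet.singleton v), lintegral_indicator_const (MeasurableSet.singleton v).compl,
    h2, h3, ENNReal.div_eq_inv_mul]
  ring

open Classical in
lemma jump_prod (κ : PMF V) (v : V) (hv : κ v = 2⁻¹) (F : Finset (V × ℕ)) (s : ℝ≥0∞) :
    ∫⁻ j, ∏ q ∈ F, (if j q = v then s else 1) ∂(jumpLaw κ) = ((1 + s) / 2) ^ F.card := by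
  have hm : Measurable (fun y : V => if y = v then s else (1 : ℝ≥0∞)) := Measurable.of_discrete
  have hX : iIndepFun (fun (q : V × ℕ) (j : V × ℕ → V) => if j q = v then s else (1 : ℝ≥0∞))
      (jumpLaw κ) :=
    iIndepFun_infinitePi (P := fun _ : V × ℕ => κ.toMeasure)
      (X := fun _ (y : V) => if y = v then s else (1 : ℝ≥0∞)) (fun _ => hm)
  rw [lintegral_prod_eq_prod_lintegral_of_indepFun F _ hX
    (fun q => hm.comp (measurable_pi_apply q))]
  rw [← Finset.prod_const]
  refine Finset.prod_congr rfl fun q _ => ?_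
  have hmp : MeasurePreserving (fun j : V × ℕ → V => j q) (jumpLaw κ) κ.toMeasure :=
    measurePreserving_eval_infinitePi (fun _ : V × ℕ => κ.toMeasure) q
  rw [← one_jump κ v hv s]
  exact hmp.lintegral_comp hm

open Classical in
lemma jump_sum (κ : PMF V) (v : V) (hv : κ v = 2⁻¹) (F : Finset (V × ℕ)) :
    ∫⁻ j, ∑ q ∈ F, (if j q = v then (1 : ℝ≥0∞) else 0) ∂(jumpLaw κ) = (F.card : ℝ≥0∞) / 2 := by
  have hm : Measurable (fun y : V => if y = v then (1 : ℝ≥0∞) else 0) := Measurable.of_discrete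
  have hm' : ∀ q ∈ F, Measurable (fun j : V × ℕ → V => if j q = v then (1 : ℝ≥0∞) else 0) :=
    fun q _ => hm.comp (measurable_pi_apply q)
  rw [lintegral_finsetSum F hm']
  have h1 : ∀ q ∈ F, ∫⁻ j : V × ℕ → V, (if j q = v then (1 : ℝ≥0∞) else 0) ∂(jumpLaw κ) = 2⁻¹ := by
    intro q _
    have hmp : MeasurePreserving (fun j : V × ℕ → V => j q) (jumpLaw κ) κ.toMeasure :=
      measurePreserving_eval_infinitePi (fun _ : V × ℕ => κ.toMeasure) q
    have h2 : ∫⁻ y, (if y = v then (1 : ℝ≥0∞) else 0) ∂κ.toMeasure = 2⁻¹ := by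
      have h1 : ∀ y, (if y = v then (1 : ℝ≥0∞) else 0)
          = ({v} : Set V).indicator (fun _ => 1) y := by
        intro y
        by_cases h : y = v <;> simp [h]
      simp_rw [h1]
      rw [lintegral_indicator_const (MeasurableSet.singleton v),
        PMF.toMeasure_apply_singleton _ _ (MeasurableSet.singleton v), hv, one_mul]
    rw [← h2]
    exact hmp.lintegral_comp hm
  rw [Finset.sum_congr rfl h1, Finset.sum_const, nsmul_eq_mul, ENNReal.div_eq_inv_mul, mul_comm]

lemma lintegral_jump (K : V → PMF V) (p : I) (P : Past V) (k : ℕ) (w : V)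
    (Φ : Finset (V × ℕ) → (V × ℕ → V) → ℝ≥0∞) (hΦ : ∀ F, Measurable (Φ F)) :
    ∫⁻ ω, Φ (DS P ω k w) (ω w).2 ∂(law K p)
      = ∫⁻ ω, ∫⁻ j, Φ (DS P ω k w) j ∂(jumpLaw (K w)) ∂(law K p) := by
  classical
  have hDS := measurable_DS P k w
  have hm1 : Measurable (fun ω : Env V => Φ (DS P ω k w) (ω w).2) :=
    meas_comp_countable (f := fun ω : Env V => DS P ω k w) (g := fun F ω => Φ F (ω w).2) hDS
      (fun F => (hΦ F).comp (measurable_snd.comp (measurable_pi_apply w)))
  have hm2 : Measurable (fun ω : Env V => ∫⁻ j, Φ (DS P ω k w) j ∂(jumpLaw (K w))) :=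
    (Measurable.of_discrete (f := fun F => ∫⁻ j, Φ F j ∂(jumpLaw (K w)))).comp hDS
  unfold law
  rw [lintegral_resample (fun u => blockLaw K p u) w hm1,
    lintegral_resample (fun u => blockLaw K p u) w hm2]
  refine lintegral_congr fun ω => ?_
  simp only [Function.update_self]
  have hu : Measurable (fun b : Block V => Function.update ω w b) := measurable_update ω
  have hm3 : Measurable (fun b : Block V => Φ (DS P (Function.update ω w b) k w) b.2) := by
    have := hm1.comp hu
    simpa [Function.comp_def] using this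
  have hm4 : Measurable (fun b : Block V =>
      ∫⁻ j, Φ (DS P (Function.update ω w b) k w) j ∂(jumpLaw (K w))) := hm2.comp hu
  unfold blockLaw
  rw [lintegral_prod _ hm3.aemeasurable, lintegral_prod _ hm4.aemeasurable]
  refine lintegral_congr fun a => ?_
  have h5 : ∀ j, DS P (Function.update ω w (a, j)) k w
      = DS P (Function.update ω w (a, (ω w).2)) k w := fun j => DS_update P ω k w a _ _
  simp only [h5, lintegral_const, measure_univ, mul_one]
  rfl

lemma lintegral_car (K : V → PMF V) (p : I) (P : Past V) (k : ℕ) (w : V)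
    (Φ : ℕ → Bool → ℝ≥0∞) :
    ∫⁻ ω, Φ (cA P ω k w) (ω.car w) ∂(law K p)
      = ∫⁻ ω, (ENNReal.ofReal p * Φ (cA P ω k w) true
          + ENNReal.ofReal (1 - p) * Φ (cA P ω k w) false) ∂(law K p) := by
  classical
  have hcA := measurable_cA P k w
  have hm1 : Measurable (fun ω : Env V => Φ (cA P ω k w) (ω.car w)) :=
    (Measurable.of_discrete (f := fun q : ℕ × Bool => Φ q.1 q.2)).comp
      (hcA.prodMk (measurable_car w))
  have hcar : ∀ (ω : Env V) (b : Block V), Env.car (Function.update ω w b) w = b.1.1 := by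
    intro ω b
    simp [Env.car]
  unfold law
  rw [lintegral_resample (fun u => blockLaw K p u) w hm1]
  refine lintegral_congr fun ω => ?_
  simp only [cA_update, hcar]
  have hm2 : Measurable (fun b : Bool => Φ (cA P ω k w) b) := Measurable.of_discrete
  have h1 : ∫⁻ b, Φ (cA P ω k w) b.1.1 ∂(blockLaw K p w)
      = ∫⁻ b, Φ (cA P ω k w) b ∂(Ber(true, false, p) : Measure Bool) := by
    have hm3 : Measurable (fun b : Block V => Φ (cA P ω k w) b.1.1) :=
      hm2.comp (measurable_fst.comp measurable_fst)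
    have hm4 : Measurable (fun b : Bool × ((i : ℕ × NF V) → i.2.1) => Φ (cA P ω k w) b.1) :=
      hm2.comp measurable_fst
    unfold blockLaw
    rw [lintegral_prod _ hm3.aemeasurable]
    simp only [lintegral_const, measure_univ, mul_one]
    rw [lintegral_prod _ hm4.aemeasurable]
    simp only [lintegral_const, measure_univ, mul_one]
  rw [h1, bernoulliMeasure_def, lintegral_add_measure, lintegral_smul_measure,
    lintegral_smul_measure, lintegral_dirac, lintegral_dirac]
  have e1 : ((unitInterval.toNNReal p : NNReal) : ℝ≥0∞) = ENNReal.ofReal p := by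
    rw [ENNReal.ofReal_eq_coe_nnreal p.2.1]
    rfl
  have e2 : ((unitInterval.toNNReal (σ p) : NNReal) : ℝ≥0∞) = ENNReal.ofReal (1 - p) := by
    rw [ENNReal.ofReal_eq_coe_nnreal (sub_nonneg.2 p.2.2)]
    rfl
  rw [ENNReal.smul_def, ENNReal.smul_def, e1, e2, smul_eq_mul, smul_eq_mul]

/-- departures to `v`, generating function -/
lemma lintegral_pow_cN (K : V → PMF V) (p : I) (P : Past V) (k : ℕ) (w v : V)
    (hv : K w v = 2⁻¹) (s : ℝ≥0∞) :
    ∫⁻ ω, s ^ cN P ω k w v ∂(law K p) = ∫⁻ ω, ((1 + s) / 2) ^ cD P ω k w ∂(law K p) := by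
  classical
  simp_rw [pow_cN]
  rw [lintegral_jump K p P k w (fun F j => ∏ q ∈ F, if j q = v then s else 1)]
  · refine lintegral_congr fun ω => ?_
    rw [jump_prod (K w) v hv, DS_card]
  · intro F
    refine Finset.measurable_prod _ fun q _ => ?_
    exact (Measurable.of_discrete (f := fun y : V => if y = v then s else (1 : ℝ≥0∞))).comp
      (measurable_pi_apply q)

/-- departures to `v`, mean -/
lemma lintegral_cN (K : V → PMF V) (p : I) (P : Past V) (k : ℕ) (w v : V)
    (hv : K w v = 2⁻¹) :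
    ∫⁻ ω, (cN P ω k w v : ℝ≥0∞) ∂(law K p) = ∫⁻ ω, (cD P ω k w : ℝ≥0∞) / 2 ∂(law K p) := by
  classical
  have h1 : ∀ ω : Env V, (cN P ω k w v : ℝ≥0∞)
      = ∑ q ∈ DS P ω k w, if (ω w).2 q = v then (1 : ℝ≥0∞) else 0 := by
    intro ω
    rw [cN_eq_sum]
    push_cast
    rfl
  simp_rw [h1]
  rw [lintegral_jump K p P k w (fun F j => ∑ q ∈ F, if j q = v then (1 : ℝ≥0∞) else 0)]
  · refine lintegral_congr fun ω => ?_
    rw [jump_sum (K w) v hv, DS_card]
  · intro F
    refine Finset.measurable_sum _ fun q _ => ?_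
    exact (Measurable.of_discrete (f := fun y : V => if y = v then (1 : ℝ≥0∞) else 0)).comp
      (measurable_pi_apply q)

/-- departures, any function -/
lemma lintegral_cD (K : V → PMF V) (p : I) (P : Past V) (k : ℕ) (w : V) (g : ℕ → ℝ≥0∞) :
    ∫⁻ ω, g (cD P ω k w) ∂(law K p)
      = ∫⁻ ω, (ENNReal.ofReal p * g (cA P ω k w + 1)
          + ENNReal.ofReal (1 - p) * g (cA P ω k w - 1)) ∂(law K p) := by
  simp_rw [cD_eq]
  rw [lintegral_car K p P k w (fun n b => g (if b = true then n + 1 else n - 1))]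
  simp

/-- visits, generating function -/
lemma lintegral_pow_cA (K : V → PMF V) (p : I) (P : Past V)
    (h0 : ∀ w, K w (P.r0 w) = 2⁻¹) (h1 : ∀ w, K w (P.r1 w) = 2⁻¹) (k : ℕ) (v : V) (s : ℝ≥0∞) :
    ∫⁻ ω, s ^ cA P ω (k + 1) v ∂(law K p)
      = (∫⁻ ω, ((1 + s) / 2) ^ cD P ω k (P.r0.symm v) ∂(law K p))
        * ∫⁻ ω, ((1 + s) / 2) ^ cD P ω k (P.r1.symm v) ∂(law K p) := by
  classical
  have hv0 : K (P.r0.symm v) v = 2⁻¹ := by
    have := h0 (P.r0.symm v); rwa [Equiv.apply_symm_apply] at this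
  have hv1 : K (P.r1.symm v) v = 2⁻¹ := by
    have := h1 (P.r1.symm v); rwa [Equiv.apply_symm_apply] at this
  simp_rw [cA_succ, pow_add]
  have hind : IndepFun (fun ω : Env V => cN P ω k (P.r0.symm v) v)
      (fun ω : Env V => cN P ω k (P.r1.symm v) v) (law K p) :=
    indepFun_of_dependsOn (fun u => blockLaw K p u) (measurable_cN P k _ v)
      (measurable_cN P k _ v) (cN_dependsOn P k _ v) (cN_dependsOn P k _ v) (P.disj v)
  have hpow : Measurable (fun n : ℕ => s ^ n) := Measurable.of_discrete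
  have hind2 := hind.comp hpow hpow
  have := lintegral_mul_eq_lintegral_mul_lintegral_of_indepFun
    (hpow.comp (measurable_cN P k (P.r0.symm v) v)) (hpow.comp (measurable_cN P k (P.r1.symm v) v))
    hind2
  simp only [Pi.mul_apply, Function.comp_def] at this
  rw [this, lintegral_pow_cN K p P k _ v hv0, lintegral_pow_cN K p P k _ v hv1]

/-- visits, mean -/
lemma lintegral_cA (K : V → PMF V) (p : I) (P : Past V)
    (h0 : ∀ w, K w (P.r0 w) = 2⁻¹) (h1 : ∀ w, K w (P.r1 w) = 2⁻¹) (k : ℕ) (v : V) :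
    ∫⁻ ω, (cA P ω (k + 1) v : ℝ≥0∞) ∂(law K p)
      = (∫⁻ ω, (cD P ω k (P.r0.symm v) : ℝ≥0∞) / 2 ∂(law K p))
        + ∫⁻ ω, (cD P ω k (P.r1.symm v) : ℝ≥0∞) / 2 ∂(law K p) := by
  have hv0 : K (P.r0.symm v) v = 2⁻¹ := by
    have := h0 (P.r0.symm v); rwa [Equiv.apply_symm_apply] at this
  have hv1 : K (P.r1.symm v) v = 2⁻¹ := by
    have := h1 (P.r1.symm v); rwa [Equiv.apply_symm_apply] at this
  simp_rw [cA_succ, Nat.cast_add]
  rw [lintegral_add_left, lintegral_cN K p P k _ v hv0, lintegral_cN K p P k _ v hv1]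
  exact (Measurable.of_discrete (f := fun n : ℕ => (n : ℝ≥0∞))).comp (measurable_cN P k _ v)

end Pool.Agent.W581.Parking
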