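import Pool.Agent.W581.Parking.Compare

/-!
# The lamplighter group

The Diestel–Leder graph `DL(2,2)`, the Cayley graph of the lamplighter group `ℤ/2 ≀ ℤ`, with the
kernel which moves upwards along one of the two upward edges, each with probability `1/2`.
-/

set_option autoImplicit false

open MeasureTheory ProbabilityTheory Filter Topology
open scoped ENNReal unitInterval

namespace Pool.Agent.W581.Parking

/-- The vertices: a finitely supported lamp configuration and the position of the lamplighter. -/
abbrev LL : Type := (ℤ →₀ ZMod 2) × ℤ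

/-- move right -/
noncomputable def r0 : Equiv.Perm LL where
  toFun x := (x.1, x.2 + 1)
  invFun x := (x.1, x.2 - 1)
  left_inv x := by simp
  right_inv x := by simp

/-- switch the lamp at the present position and move right -/
noncomputable def r1 : Equiv.Perm LL where
  toFun x := (x.1 + Finsupp.single x.2 1, x.2 + 1)
  invFun x := (x.1 - Finsupp.single (x.2 - 1) 1, x.2 - 1)
  left_inv x := by simp
  right_inv x := by simp

lemma r0_apply (x : LL) : r0 x = (x.1, x.2 + 1) := rfl
lemma r1_apply (x : LL) : r1 x = (x.1 + Finsupp.single x.2 1, x.2 + 1) := rfl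
lemma r0_symm_apply (x : LL) : r0.symm x = (x.1, x.2 - 1) := rfl
lemma r1_symm_apply (x : LL) : r1.symm x = (x.1 - Finsupp.single (x.2 - 1) 1, x.2 - 1) := rfl

lemma r0_ne_r1 (x : LL) : r0 x ≠ r1 x := by
  intro h
  have h1 := congrArg Prod.fst h
  rw [r0_apply, r1_apply] at h1
  have h2 : (Finsupp.single x.2 (1 : ZMod 2)) = 0 := by
    simpa using h1.symm
  rw [Finsupp.single_eq_zero] at h2
  exact one_ne_zero h2

/-- the past structure -/
noncomputable def lampPast : Past LL where
  r0 := r0
  r1 := r1
  C x := {y | y.2 ≤ x.2 ∧ ∀ i, x.2 ≤ i → y.1 i = x.1 i}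
  self_mem x := ⟨le_rfl, fun _ _ => rfl⟩
  sub0 x y hy := by
    rw [r0_symm_apply] at hy
    obtain ⟨h1, h2⟩ := hy
    simp only at h1 h2
    exact ⟨by omega, fun i hi => h2 i (by omega)⟩
  sub1 x y hy := by
    rw [r1_symm_apply] at hy
    obtain ⟨h1, h2⟩ := hy
    simp only at h1 h2
    refine ⟨by omega, fun i hi => ?_⟩
    rw [h2 i (by omega), Finsupp.sub_apply, Finsupp.single_eq_of_ne (by omega), sub_zero]
  notMem0 x hx := by
    rw [r0_symm_apply] at hx
    have := hx.1
    simp only at this
    omega
  notMem1 x hx := by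
    rw [r1_symm_apply] at hx
    have := hx.1
    simp only at this
    omega
  disj x := by
    rw [Set.disjoint_left]
    intro y hy hy'
    rw [r0_symm_apply] at hy
    rw [r1_symm_apply] at hy'
    have h1 := hy.2 (x.2 - 1) le_rfl
    have h2 := hy'.2 (x.2 - 1) le_rfl
    simp only at h1 h2
    rw [h1, Finsupp.sub_apply, Finsupp.single_eq_same] at h2
    have : (1 : ZMod 2) = 0 := by
      have h3 : x.1 (x.2 - 1) - (x.1 (x.2 - 1) - 1) = 0 := by rw [← h2]; simp
      simpa using h3
    exact one_ne_zero this

/-- the Diestel–Leder graph `DL(2,2)` -/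
def lampGraph : SimpleGraph LL where
  Adj u v := (v = r0 u ∨ v = r1 u) ∨ (u = r0 v ∨ u = r1 v)
  symm := ⟨fun _ _ h => h.symm⟩
  loopless := ⟨fun u h => by
    have key : ∀ u : LL, ¬ (u = r0 u ∨ u = r1 u) := by
      intro u h
      rcases h with h | h
      · have := congrArg Prod.snd h
        rw [r0_apply] at this
        simp at this
      · have := congrArg Prod.snd h
        rw [r1_apply] at this
        simp at this
    rcases h with h | h
    · exact key u h
    · exact key u h⟩

lemma adj_r0 (u : LL) : lampGraph.Adj u (r0 u) := Or.inl (Or.inl rfl)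
lemma adj_r1 (u : LL) : lampGraph.Adj u (r1 u) := Or.inl (Or.inr rfl)

open Classical in
/-- the kernel: one of the two upward edges, each with probability `1/2` -/
noncomputable def lampKernel (u : LL) : PMF LL :=
  PMF.uniformOfFinset {r0 u, r1 u} ⟨r0 u, by simp⟩

lemma lampKernel_apply (u v : LL) :
    lampKernel u v = @ite _ (v = r0 u ∨ v = r1 u) (Classical.propDecidable _) 2⁻¹ 0 := by
  classical
  unfold lampKernel
  rw [PMF.uniformOfFinset_apply]
  have hc : ({r0 u, r1 u} : Finset LL).card = 2 := Finset.card_pair (r0_ne_r1 u)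
  rw [hc]
  simp only [Finset.mem_insert, Finset.mem_singleton]
  push_cast
  congr

/-- the group: all permutations of the vertices which commute with `r0` and `r1` -/
def lampGroup : Subgroup (Equiv.Perm LL) := Subgroup.centralizer {r0, r1}

lemma mem_lampGroup {φ : Equiv.Perm LL} :
    φ ∈ lampGroup ↔ (∀ x, φ (r0 x) = r0 (φ x)) ∧ (∀ x, φ (r1 x) = r1 (φ x)) := by
  unfold lampGroup
  rw [Subgroup.mem_centralizer_iff]
  constructor
  · intro h
    refine ⟨fun x => ?_, fun x => ?_⟩
    · have := h r0 (by simp)
      exact (congrArg (fun ψ : Equiv.Perm LL => ψ x) this).symm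
    · have := h r1 (by simp)
      exact (congrArg (fun ψ : Equiv.Perm LL => ψ x) this).symm
  · rintro ⟨h0, h1⟩ ψ hψ
    rcases hψ with h | h
    · subst h
      ext1 x
      exact (h0 x).symm
    · have h' : ψ = r1 := h
      subst h'
      ext1 x
      exact (h1 x).symm

/-- the translations of the lamplighter group -/
noncomputable def trans (T : ℤ →₀ ZMod 2) (m : ℤ) : Equiv.Perm LL :=
  Equiv.prodCongr ((Finsupp.domCongr (M := ZMod 2) (Equiv.addRight m)).toEquiv.trans
    (Equiv.addLeft T)) (Equiv.addRight m)

lemma trans_apply (T : ℤ →₀ ZMod 2) (m : ℤ) (x : LL) :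
    trans T m x = (T + Finsupp.domCongr (M := ZMod 2) (Equiv.addRight m) x.1, x.2 + m) := rfl

lemma trans_mem (T : ℤ →₀ ZMod 2) (m : ℤ) : trans T m ∈ lampGroup := by
  rw [mem_lampGroup]
  constructor
  · intro x
    rw [trans_apply, r0_apply, r0_apply, trans_apply]
    simp only
    congr 1
    ring
  · intro x
    rw [trans_apply, r1_apply, r1_apply, trans_apply]
    simp only [map_add]
    congr 1
    · rw [add_assoc]
      congr 2
      simp [Finsupp.domCongr_apply]
    · ring

lemma reach_r0 (u : LL) : lampGraph.Reachable u (r0 u) := (adj_r0 u).reachable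
lemma reach_r1 (u : LL) : lampGraph.Reachable u (r1 u) := (adj_r1 u).reachable

lemma reach_horizontal (S : ℤ →₀ ZMod 2) (n m : ℤ) : lampGraph.Reachable (S, n) (S, m) := by
  have key : ∀ (k : ℕ) (n : ℤ), lampGraph.Reachable (S, n) (S, n + k) := by
    intro k
    induction k with
    | zero => intro n; simp
    | succ k ih =>
      intro n
      refine (ih n).trans ?_
      have := reach_r0 (S, n + k)
      rw [r0_apply] at this
      simpa [add_assoc] using this
  rcases le_total n m with h | h
  · obtain ⟨k, hk⟩ := Int.eq_ofNat_of_zero_le (sub_nonneg.2 h)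
    have : m = n + k := by omega
    rw [this]; exact key k n
  · obtain ⟨k, hk⟩ := Int.eq_ofNat_of_zero_le (sub_nonneg.2 h)
    have : n = m + k := by omega
    rw [this]; exact (key k m).symm

lemma reach_single (S : ℤ →₀ ZMod 2) (n i : ℤ) :
    lampGraph.Reachable (S, n) (S + Finsupp.single i 1, n) := by
  refine (reach_horizontal S n i).trans ?_
  refine ((reach_r1 (S, i)).trans ?_)
  rw [r1_apply]
  exact reach_horizontal _ _ _

lemma reach_add (R : ℤ →₀ ZMod 2) :
    ∀ (S : ℤ →₀ ZMod 2) (n : ℤ), lampGraph.Reachable (S, n) (S + R, n) := by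
  induction R using Finsupp.induction with
  | zero => intro S n; simp
  | single_add a b f _ hb ih =>
    intro S n
    have hb1 : b = 1 := by
      revert hb
      revert b
      decide
    subst hb1
    refine (reach_single S n a).trans ?_
    have := ih (S + Finsupp.single a 1) n
    rwa [add_assoc] at this

lemma lamp_connected : lampGraph.Connected := by
  have : Nonempty LL := ⟨(0, 0)⟩
  refine ⟨fun u v => ?_⟩
  have h1 := reach_add (v.1 - u.1) u.1 u.2
  rw [add_sub_cancel] at h1
  exact h1.trans (reach_horizontal v.1 u.2 v.2)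

/-- the triple -/
noncomputable def lampTriple : Triple LL where
  G := lampGraph
  K := lampKernel
  Γ := lampGroup
  infinite := inferInstance
  locallyFinite u := by
    refine Set.Finite.subset (s := {r0 u, r1 u, r0.symm u, r1.symm u}) (by simp) ?_
    intro v hv
    rw [SimpleGraph.mem_neighborSet] at hv
    rcases hv with (h | h) | (h | h)
    · simp [h]
    · simp [h]
    · right; right; left
      rw [h, Equiv.symm_apply_apply]
    · right; right; right
      rw [h, Equiv.symm_apply_apply]
      rfl
  connected := lamp_connected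
  K_adj u v h := by
    rw [lampKernel_apply, if_neg]
    exact fun h' => h (Or.inl h')
  Γ_adj φ hφ u v := by
    obtain ⟨h0, h1⟩ := mem_lampGroup.1 hφ
    have key : ∀ u v : LL, (φ v = r0 (φ u) ∨ φ v = r1 (φ u)) ↔ (v = r0 u ∨ v = r1 u) := by
      intro u v
      rw [← h0, ← h1, φ.injective.eq_iff, φ.injective.eq_iff]
    exact or_congr (key u v) (key v u)
  Γ_K φ hφ u v := by
    obtain ⟨h0, h1⟩ := mem_lampGroup.1 hφ
    rw [lampKernel_apply, lampKernel_apply]
    have key : (φ v = r0 (φ u) ∨ φ v = r1 (φ u)) ↔ (v = r0 u ∨ v = r1 u) := by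
      rw [← h0, ← h1, φ.injective.eq_iff, φ.injective.eq_iff]
    by_cases h : v = r0 u ∨ v = r1 u
    · rw [if_pos (key.2 h), if_pos h]
    · rw [if_neg (fun h' => h (key.1 h')), if_neg h]

lemma lamp_fix {φ : Equiv.Perm LL} (hφ : φ ∈ lampGroup) {u : LL} (hu : φ u = u) (v : LL) :
    φ v = v := by
  obtain ⟨h0, h1⟩ := mem_lampGroup.1 hφ
  obtain ⟨p⟩ := lamp_connected.preconnected u v
  induction p with
  | nil => exact hu
  | @cons a b c hab _ ih =>
    apply ih
    rcases hab with (h | h) | (h | h)
    · rw [h, h0, hu]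
    · rw [h, h1, hu]
    · apply r0.injective
      rw [← h0, ← h, hu]
    · apply r1.injective
      rw [← h1, ← h, hu]

lemma lamp_transitive : lampTriple.Transitive := by
  intro u v
  refine ⟨trans (v.1 - Finsupp.domCongr (M := ZMod 2) (Equiv.addRight (v.2 - u.2)) u.1)
    (v.2 - u.2), trans_mem _ _, ?_⟩
  rw [trans_apply]
  ext1
  · simp
  · simp

lemma lamp_unimodular : lampTriple.Unimodular := by
  have key : ∀ u v, lampTriple.stabOrbit u v = {v} := by
    intro u v
    ext w
    constructor
    · rintro ⟨φ, hφ, hu, hv⟩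
      rw [← hv]
      exact lamp_fix hφ hu v
    · intro hw
      exact ⟨1, lampTriple.Γ.one_mem, rfl, by simpa using hw.symm⟩
  intro u v
  rw [key, key]
  simp

lemma lamp_accessible : lampTriple.InfinitelyAccessible := by
  refine ⟨trans 0 (-1), trans_mem _ _, (0, 0), ?_, ?_⟩
  · have h : ∀ n : ℕ, ((trans 0 (-1)) ^ n) (0, 0) = (0, -(n : ℤ)) := by
      intro n
      induction n with
      | zero => simp
      | succ n ih =>
        rw [pow_succ', Equiv.Perm.mul_apply, ih, trans_apply]
        ext1
        · simp
        · simp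
          ring
    apply Set.infinite_range_of_injective
    intro a b hab
    simp only [h] at hab
    have := congrArg Prod.snd hab
    simp at this
    exact this
  · apply Relation.ReflTransGen.single
    have h1 : ((0, 0) : LL) = r0 (trans 0 (-1) (0, 0)) := by
      rw [trans_apply, r0_apply]
      simp
    refine ⟨?_, ?_⟩
    · nth_rewrite 2 [h1]
      exact adj_r0 _
    · have h2 : lampKernel (trans 0 (-1) (0, 0)) (0, 0) ≠ 0 := by
        rw [lampKernel_apply, if_pos (Or.inl h1)]
        simp
      exact h2

end Pool.Agent.W581.Parking
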