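import Pool.Agent.W581.Parking.Prob

set_option autoImplicit false

open MeasureTheory ProbabilityTheory Filter Topology
open scoped ENNReal unitInterval

namespace Pool.Agent.W581.Parking

/-- A directed graph in which every vertex `w` has exactly the two out-neighbours `r0 w`, `r1 w` and
every vertex `v` has exactly the two in-neighbours `r0⁻¹ v`, `r1⁻¹ v`, whose pasts are disjoint;
`C v` is a set containing the past of `v`, and `v` itself. -/
structure Past (V : Type) where
  r0 : Equiv.Perm V
  r1 : Equiv.Perm V
  C : V → Set V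
  self_mem : ∀ v, v ∈ C v
  sub0 : ∀ v, C (r0.symm v) ⊆ C v
  sub1 : ∀ v, C (r1.symm v) ⊆ C v
  notMem0 : ∀ v, v ∉ C (r0.symm v)
  notMem1 : ∀ v, v ∉ C (r1.symm v)
  disj : ∀ v, Disjoint (C (r0.symm v)) (C (r1.symm v))

variable {V : Type}

open Classical in
/-- the cars of `D` (departing from `w` at time `t`) which move to `v` -/
noncomputable def goTo (ω : Env V) (t : ℕ) (w v : V) (D : Finset V) : Finset V :=
  D.filter (fun x => ω.jump w x t = v)

open Classical in
/-- the visitors of `v` at time `t + 1`, if `s` describes the departures at time `t` -/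
noncomputable def av (P : Past V) (ω : Env V) (t : ℕ) (s : V → Finset V × Bool) (v : V) :
    Finset V :=
  goTo ω t (P.r0.symm v) v (s (P.r0.symm v)).1 ∪ goTo ω t (P.r1.symm v) v (s (P.r1.symm v)).1

open Classical in
/-- the unparked cars at `v` at time `t + 1`, if `F` is the set of visitors -/
noncomputable def dep (ω : Env V) (v : V) (t : ℕ) (occ : Bool) (F : Finset V) : Finset V :=
  if occ = true then F else if h : F.Nonempty then F.erase (ω.pick v (t + 1) ⟨F, h⟩) else ∅

open Classical in
/-- the local recursion: unparked cars at `w` and whether `w` is occupied, at time `t` -/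
noncomputable def ls (P : Past V) (ω : Env V) : ℕ → V → Finset V × Bool
  | 0 => fun w => (if ω.car w = true then {w} else ∅, ω.car w)
  | t + 1 => fun w => (dep ω w t (ls P ω t w).2 (av P ω t (ls P ω t) w),
      (ls P ω t w).2 || decide (av P ω t (ls P ω t) w).Nonempty)

/-- visitors of `v` at time `t + 1` -/
noncomputable def A (P : Past V) (ω : Env V) (t : ℕ) (v : V) : Finset V :=
  av P ω t (ls P ω t) v

/-- number of visits to `v` up to time `k` -/
noncomputable def cA (P : Past V) (ω : Env V) (k : ℕ) (v : V) : ℕ :=
  ∑ t ∈ Finset.range k, (A P ω t v).card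

/-- number of departures from `w` up to time `k` -/
noncomputable def cD (P : Past V) (ω : Env V) (k : ℕ) (w : V) : ℕ :=
  ∑ t ∈ Finset.range (k + 1), (ls P ω t w).1.card

/-- number of departures from `w` to `v` up to time `k` -/
noncomputable def cN (P : Past V) (ω : Env V) (k : ℕ) (w v : V) : ℕ :=
  ∑ t ∈ Finset.range (k + 1), (goTo ω t w v (ls P ω t w).1).card

lemma goTo_subset (ω : Env V) (t : ℕ) (w v : V) (D : Finset V) : goTo ω t w v D ⊆ D := by
  classical
  unfold goTo
  exact Finset.filter_subset _ _

lemma dep_subset (ω : Env V) (v : V) (t : ℕ) (occ : Bool) (F : Finset V) :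
    dep ω v t occ F ⊆ F := by
  classical
  unfold dep
  split_ifs
  · exact subset_rfl
  · exact Finset.erase_subset _ _
  · exact Finset.empty_subset _

lemma ls_subset (P : Past V) (ω : Env V) (t : ℕ) : ∀ w, ((ls P ω t w).1 : Set V) ⊆ P.C w := by
  classical
  induction t with
  | zero =>
    intro w x hx
    simp only [ls] at hx
    split_ifs at hx with h
    · have : x = w := by simpa using hx
      subst this
      exact P.self_mem x
    · simp at hx
  | succ t ih =>
    intro w x hx
    have h1 : x ∈ av P ω t (ls P ω t) w := dep_subset _ _ _ _ _ hx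
    unfold av at h1
    rcases Finset.mem_union.1 h1 with h | h
    · exact P.sub0 w (ih _ (goTo_subset _ _ _ _ _ h))
    · exact P.sub1 w (ih _ (goTo_subset _ _ _ _ _ h))

lemma card_av (P : Past V) (ω : Env V) (t : ℕ) (v : V) :
    (A P ω t v).card = (goTo ω t (P.r0.symm v) v (ls P ω t (P.r0.symm v)).1).card
      + (goTo ω t (P.r1.symm v) v (ls P ω t (P.r1.symm v)).1).card := by
  classical
  unfold A av
  rw [Finset.card_union_of_disjoint]
  rw [Finset.disjoint_left]
  intro x hx hx'
  exact Set.disjoint_left.1 (P.disj v) (ls_subset P ω t _ (goTo_subset _ _ _ _ _ hx))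
    (ls_subset P ω t _ (goTo_subset _ _ _ _ _ hx'))

lemma cA_zero (P : Past V) (ω : Env V) (v : V) : cA P ω 0 v = 0 := by
  simp [cA]

lemma cA_succ' (P : Past V) (ω : Env V) (k : ℕ) (v : V) :
    cA P ω (k + 1) v = cA P ω k v + (A P ω k v).card := by
  simp [cA, Finset.sum_range_succ]

lemma cA_succ (P : Past V) (ω : Env V) (k : ℕ) (v : V) :
    cA P ω (k + 1) v = cN P ω k (P.r0.symm v) v + cN P ω k (P.r1.symm v) v := by
  unfold cA cN
  rw [← Finset.sum_add_distrib]
  exact Finset.sum_congr rfl fun t _ => card_av P ω t v

lemma cA_mono (P : Past V) (ω : Env V) (v : V) : Monotone fun k => cA P ω k v := by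
  refine monotone_nat_of_le_succ fun k => ?_
  rw [cA_succ']
  exact Nat.le_add_right _ _

lemma occ_eq (P : Past V) (ω : Env V) (k : ℕ) (w : V) :
    (ls P ω k w).2 = true ↔ (ω.car w = true ∨ 0 < cA P ω k w) := by
  classical
  induction k with
  | zero => simp [ls, cA]
  | succ k ih =>
    have h1 : (ls P ω (k + 1) w).2
        = ((ls P ω k w).2 || decide (av P ω k (ls P ω k) w).Nonempty) := rfl
    rw [h1, Bool.or_eq_true, ih, decide_eq_true_iff, cA_succ']
    have h2 : (av P ω k (ls P ω k) w).Nonempty ↔ 0 < (A P ω k w).card :=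
      Finset.card_pos.symm
    rw [h2]
    constructor
    · rintro ((h | h) | h)
      · exact Or.inl h
      · exact Or.inr (by omega)
      · exact Or.inr (by omega)
    · rintro (h | h)
      · exact Or.inl (Or.inl h)
      · by_cases h3 : 0 < cA P ω k w
        · exact Or.inl (Or.inr h3)
        · exact Or.inr (by omega)

lemma cD_succ (P : Past V) (ω : Env V) (k : ℕ) (w : V) :
    cD P ω (k + 1) w = cD P ω k w + (ls P ω (k + 1) w).1.card := by
  simp [cD, Finset.sum_range_succ]

lemma card_ls_succ (P : Past V) (ω : Env V) (k : ℕ) (w : V) :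
    (ls P ω (k + 1) w).1.card
      = if (ls P ω k w).2 = true then (A P ω k w).card else (A P ω k w).card - 1 := by
  classical
  have h1 : (ls P ω (k + 1) w).1 = dep ω w k (ls P ω k w).2 (A P ω k w) := rfl
  rw [h1]
  unfold dep
  split_ifs with h2 h3
  · rfl
  · rw [Finset.card_erase_of_mem]
    exact (ω w |>.1.2 (k + 1, ⟨A P ω k w, h3⟩)).2
  · have : A P ω k w = ∅ := Finset.not_nonempty_iff_eq_empty.1 h3
    simp [this]

lemma cD_eq (P : Past V) (ω : Env V) (k : ℕ) (w : V) :
    cD P ω k w = if ω.car w = true then cA P ω k w + 1 else cA P ω k w - 1 := by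
  classical
  induction k with
  | zero =>
    have h0 : (ls P ω 0 w).1 = if ω.car w = true then {w} else ∅ := rfl
    simp only [cD, cA, zero_add, Finset.sum_range_one, h0, Finset.range_zero, Finset.sum_empty]
    split_ifs with h <;> simp
  | succ k ih =>
    rw [cD_succ, ih, card_ls_succ, cA_succ']
    have h1 := occ_eq P ω k w
    by_cases hc : ω.car w = true
    · have h2 : (ls P ω k w).2 = true := h1.2 (Or.inl hc)
      simp only [hc, h2, if_true]
      omega
    · rw [if_neg hc, if_neg hc]
      by_cases h3 : 0 < cA P ω k w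
      · have h2 : (ls P ω k w).2 = true := h1.2 (Or.inr h3)
        rw [if_pos h2]
        omega
      · have h2 : ¬ (ls P ω k w).2 = true := fun h => by
          rcases h1.1 h with h' | h'
          · exact hc h'
          · exact h3 h'
        rw [if_neg h2]
        omega

end Pool.Agent.W581.Parking
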