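import Pool.Agent.W581.Parking.Local

set_option autoImplicit false

open MeasureTheory ProbabilityTheory Filter Topology
open scoped ENNReal unitInterval

namespace Pool.Agent.W581.Parking

variable {V : Type}

/-! ### Dependence on the coordinates -/

lemma goTo_congr {ω ω' : Env V} (t : ℕ) (w v : V) (D : Finset V) (h : ω w = ω' w) :
    goTo ω t w v D = goTo ω' t w v D := by
  classical
  unfold goTo Env.jump
  rw [h]

lemma ls_congr (P : Past V) {ω ω' : Env V} (t : ℕ) :
    ∀ w, (∀ u ∈ P.C w, u ≠ w → ω u = ω' u) → (ω w).1 = (ω' w).1 →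
      ls P ω t w = ls P ω' t w := by
  classical
  induction t with
  | zero =>
    intro w _ hw
    have hc : ω.car w = ω'.car w := by unfold Env.car; rw [hw]
    simp only [ls, hc]
  | succ t ih =>
    intro w hu hw
    have key : ∀ u0, P.C u0 ⊆ P.C w → w ∉ P.C u0 →
        goTo ω t u0 w (ls P ω t u0).1 = goTo ω' t u0 w (ls P ω' t u0).1 := by
      intro u0 hsub hnot
      have hne : u0 ≠ w := fun h => hnot (h ▸ P.self_mem u0)
      have h0 : ω u0 = ω' u0 := hu u0 (hsub (P.self_mem u0)) hne
      have h1 : ls P ω t u0 = ls P ω' t u0 := by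
        apply ih u0 _ (by rw [h0])
        intro u hu' _
        exact hu u (hsub hu') (fun h => hnot (h ▸ hu'))
      rw [h1, goTo_congr t u0 w _ h0]
    have hav : av P ω t (ls P ω t) w = av P ω' t (ls P ω' t) w := by
      unfold av
      rw [key _ (P.sub0 w) (P.notMem0 w), key _ (P.sub1 w) (P.notMem1 w)]
    have hls : ls P ω t w = ls P ω' t w := ih w hu hw
    have hdep : ∀ occ F, dep ω w t occ F = dep ω' w t occ F := by
      intro occ F
      unfold dep Env.pick
      rw [hw]
    simp only [ls]
    rw [hav, hls, hdep]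

lemma A_congr (P : Past V) {ω ω' : Env V} (t : ℕ) (w : V)
    (hu : ∀ u ∈ P.C w, u ≠ w → ω u = ω' u) : A P ω t w = A P ω' t w := by
  classical
  have key : ∀ u0, P.C u0 ⊆ P.C w → w ∉ P.C u0 →
      goTo ω t u0 w (ls P ω t u0).1 = goTo ω' t u0 w (ls P ω' t u0).1 := by
    intro u0 hsub hnot
    have hne : u0 ≠ w := fun h => hnot (h ▸ P.self_mem u0)
    have h0 : ω u0 = ω' u0 := hu u0 (hsub (P.self_mem u0)) hne
    have h1 : ls P ω t u0 = ls P ω' t u0 := by
      apply ls_congr P t u0 _ (by rw [h0])
      intro u hu' _
      exact hu u (hsub hu') (fun h => hnot (h ▸ hu'))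
    rw [h1, goTo_congr t u0 w _ h0]
  unfold A av
  rw [key _ (P.sub0 w) (P.notMem0 w), key _ (P.sub1 w) (P.notMem1 w)]

lemma cA_update (P : Past V) [DecidableEq V] (ω : Env V) (k : ℕ) (w : V) (b : Block V) :
    cA P (Function.update ω w b) k w = cA P ω k w := by
  unfold cA
  refine Finset.sum_congr rfl fun t _ => ?_
  rw [A_congr P t w]
  intro u _ hne
  exact Function.update_of_ne hne _ _

lemma cN_dependsOn (P : Past V) (k : ℕ) (w v : V) :
    DependsOn (fun ω : Env V => cN P ω k w v) (P.C w) := by
  intro ω ω' h
  unfold cN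
  refine Finset.sum_congr rfl fun t _ => ?_
  have h0 : ω w = ω' w := h w (P.self_mem w)
  have h1 : ls P ω t w = ls P ω' t w :=
    ls_congr P t w (fun u hu _ => h u hu) (by rw [h0])
  rw [h1, goTo_congr t w v _ h0]

/-- the set of the pairs (car, time) departing from `w` up to time `k` -/
noncomputable def DS (P : Past V) (ω : Env V) (k : ℕ) (w : V) : Finset (V × ℕ) := by
  classical
  exact (Finset.range (k + 1)).biUnion fun t => (ls P ω t w).1 ×ˢ {t}

lemma DS_prod (P : Past V) (ω : Env V) (k : ℕ) (w : V) {M : Type} [CommMonoid M]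
    (g : V × ℕ → M) :
    ∏ q ∈ DS P ω k w, g q
      = ∏ t ∈ Finset.range (k + 1), ∏ x ∈ (ls P ω t w).1, g (x, t) := by
  classical
  unfold DS
  rw [Finset.prod_biUnion]
  · refine Finset.prod_congr rfl fun t _ => ?_
    rw [Finset.prod_product]
    simp
  · intro a _ b _ hab
    rw [Function.onFun, Finset.disjoint_left]
    rintro ⟨x, t⟩ h1 h2
    simp only [Finset.mem_product, Finset.mem_singleton] at h1 h2
    exact hab (h1.2.symm.trans h2.2)

lemma DS_sum (P : Past V) (ω : Env V) (k : ℕ) (w : V) {M : Type} [AddCommMonoid M]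
    (g : V × ℕ → M) :
    ∑ q ∈ DS P ω k w, g q
      = ∑ t ∈ Finset.range (k + 1), ∑ x ∈ (ls P ω t w).1, g (x, t) := by
  classical
  unfold DS
  rw [Finset.sum_biUnion]
  · refine Finset.sum_congr rfl fun t _ => ?_
    rw [Finset.sum_product]
    simp
  · intro a _ b _ hab
    rw [Function.onFun, Finset.disjoint_left]
    rintro ⟨x, t⟩ h1 h2
    simp only [Finset.mem_product, Finset.mem_singleton] at h1 h2
    exact hab (h1.2.symm.trans h2.2)

lemma DS_card (P : Past V) (ω : Env V) (k : ℕ) (w : V) : (DS P ω k w).card = cD P ω k w := by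
  rw [Finset.card_eq_sum_ones, DS_sum]
  simp [cD]

open Classical in
lemma cN_eq_sum (P : Past V) (ω : Env V) (k : ℕ) (w v : V) :
    cN P ω k w v = ∑ q ∈ DS P ω k w, if (ω w).2 q = v then 1 else 0 := by
  rw [DS_sum]
  unfold cN
  refine Finset.sum_congr rfl fun t _ => ?_
  unfold goTo Env.jump
  rw [Finset.card_filter]

open Classical in
lemma pow_cN (P : Past V) (ω : Env V) (k : ℕ) (w v : V) (s : ℝ≥0∞) :
    s ^ cN P ω k w v = ∏ q ∈ DS P ω k w, if (ω w).2 q = v then s else 1 := by
  rw [cN_eq_sum, ← Finset.prod_pow_eq_pow_sum]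
  refine Finset.prod_congr rfl fun q _ => ?_
  split_ifs <;> simp

open Classical in
lemma DS_update (P : Past V) (ω : Env V) (k : ℕ) (w : V)
    (a : Bool × ((i : ℕ × NF V) → i.2.1)) (j j' : V × ℕ → V) :
    DS P (Function.update ω w (a, j)) k w = DS P (Function.update ω w (a, j')) k w := by
  unfold DS
  refine Finset.biUnion_congr rfl fun t _ => ?_
  rw [ls_congr P t w (ω := Function.update ω w (a, j)) (ω' := Function.update ω w (a, j'))]
  · intro u _ hne
    rw [Function.update_of_ne hne, Function.update_of_ne hne]
  · simp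

/-! ### Measurability -/

section Meas

variable {Ω α β : Type} [MeasurableSpace Ω] [MeasurableSpace α] [MeasurableSpace β]

lemma meas_comp_countable [Countable β] [MeasurableSingletonClass β] {f : Ω → β}
    (hf : Measurable f) {g : β → Ω → α} (hg : ∀ b, Measurable (g b)) :
    Measurable (fun ω => g (f ω) ω) :=
  (measurable_from_prod_countable_right (f := fun q : β × Ω => g q.1 q.2) hg).comp
    (hf.prodMk measurable_id)

lemma measurable_finset {W : Type} {f : Ω → Finset W}
    (h : ∀ x, MeasurableSet {ω | x ∈ f ω}) : Measurable f :=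
  measurable_finset_iff.2 fun x => measurableSet_setOfPred.1 (h x)

lemma mem_measurable_finset {W : Type} {f : Ω → Finset W} (hf : Measurable f) (x : W) :
    MeasurableSet {ω | x ∈ f ω} :=
  measurableSet_setOfPred.2 (measurable_finset_iff.1 hf x)

variable [MeasurableSpace V]

lemma measurable_jump (u x : V) (t : ℕ) : Measurable (fun ω : Env V => ω.jump u x t) :=
  (measurable_pi_apply (x, t)).comp (measurable_snd.comp (measurable_pi_apply u))

lemma measurable_car (u : V) : Measurable (fun ω : Env V => ω.car u) :=
  measurable_fst.comp (measurable_fst.comp (measurable_pi_apply u))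

lemma measurable_pick (u : V) (t : ℕ) (F : NF V) : Measurable (fun ω : Env V => ω.pick u t F) := by
  unfold Env.pick
  have h1 : Measurable (fun ω : Env V => (ω u).1.2 (t, F)) :=
    (measurable_pi_apply (t, F)).comp
      (measurable_snd.comp (measurable_fst.comp (measurable_pi_apply u)))
  exact measurable_subtype_coe.comp h1

variable [DiscreteMeasurableSpace V] [Countable V]

lemma measurable_goTo (t : ℕ) (w v : V) (D : Finset V) :
    Measurable (fun ω : Env V => goTo ω t w v D) := by
  classical
  refine measurable_finset fun x => ?_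
  have h1 : MeasurableSet {ω : Env V | ω.jump w x t = v} :=
    measurable_jump w x t (MeasurableSet.singleton v)
  by_cases hx : x ∈ D
  · simpa [goTo, hx] using h1
  · simp [goTo, hx]

lemma measurable_dep (v : V) (t : ℕ) (occ : Bool) (F : Finset V) :
    Measurable (fun ω : Env V => dep ω v t occ F) := by
  classical
  unfold dep
  split_ifs with h1 h2
  · exact measurable_const
  · exact (Measurable.of_discrete (f := fun x : V => F.erase x)).comp (measurable_pick v _ _)
  · exact measurable_const

lemma measurable_ls (P : Past V) (t : ℕ) : ∀ w, Measurable (fun ω : Env V => ls P ω t w) := by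
  classical
  induction t with
  | zero =>
    intro w
    exact (Measurable.of_discrete
      (f := fun b : Bool => ((if b = true then {w} else ∅ : Finset V), b))).comp (measurable_car w)
  | succ t ih =>
    intro w
    have h0 : Measurable (fun ω : Env V =>
        goTo ω t (P.r0.symm w) w (ls P ω t (P.r0.symm w)).1) :=
      meas_comp_countable (f := fun ω : Env V => (ls P ω t (P.r0.symm w)).1)
        (g := fun D ω => goTo ω t (P.r0.symm w) w D) (ih _).fst (fun D => measurable_goTo _ _ _ D)
    have h1 : Measurable (fun ω : Env V =>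
        goTo ω t (P.r1.symm w) w (ls P ω t (P.r1.symm w)).1) :=
      meas_comp_countable (f := fun ω : Env V => (ls P ω t (P.r1.symm w)).1)
        (g := fun D ω => goTo ω t (P.r1.symm w) w D) (ih _).fst (fun D => measurable_goTo _ _ _ D)
    have h2 : Measurable (fun ω : Env V => av P ω t (ls P ω t) w) := by
      unfold av
      exact (Measurable.of_discrete (f := fun q : Finset V × Finset V => q.1 ∪ q.2)).comp
        (h0.prodMk h1)
    have h3 : Measurable (fun ω : Env V => (ls P ω t w).2) := (ih w).snd
    have h4 : Measurable (fun ω : Env V => dep ω w t (ls P ω t w).2 (av P ω t (ls P ω t) w)) :=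
      meas_comp_countable (f := fun ω : Env V => ((ls P ω t w).2, av P ω t (ls P ω t) w))
        (g := fun q ω => dep ω w t q.1 q.2) (h3.prodMk h2) (fun q => measurable_dep w t q.1 q.2)
    have h5 : Measurable (fun ω : Env V =>
        ((ls P ω t w).2 || decide (av P ω t (ls P ω t) w).Nonempty)) :=
      (Measurable.of_discrete (f := fun q : Bool × Finset V => q.1 || decide q.2.Nonempty)).comp
        (h3.prodMk h2)
    exact h4.prodMk h5

lemma measurable_A (P : Past V) (t : ℕ) (w : V) : Measurable (fun ω : Env V => A P ω t w) := by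
  classical
  have h0 : Measurable (fun ω : Env V =>
      goTo ω t (P.r0.symm w) w (ls P ω t (P.r0.symm w)).1) :=
    meas_comp_countable (f := fun ω : Env V => (ls P ω t (P.r0.symm w)).1)
      (g := fun D ω => goTo ω t (P.r0.symm w) w D) (measurable_ls P t _).fst
      (fun D => measurable_goTo _ _ _ D)
  have h1 : Measurable (fun ω : Env V =>
      goTo ω t (P.r1.symm w) w (ls P ω t (P.r1.symm w)).1) :=
    meas_comp_countable (f := fun ω : Env V => (ls P ω t (P.r1.symm w)).1)
      (g := fun D ω => goTo ω t (P.r1.symm w) w D) (measurable_ls P t _).fst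
      (fun D => measurable_goTo _ _ _ D)
  unfold A av
  exact (Measurable.of_discrete (f := fun q : Finset V × Finset V => q.1 ∪ q.2)).comp
    (h0.prodMk h1)

lemma measurable_cA (P : Past V) (k : ℕ) (w : V) : Measurable (fun ω : Env V => cA P ω k w) := by
  unfold cA
  exact Finset.measurable_sum _ fun t _ =>
    (Measurable.of_discrete (f := fun F : Finset V => F.card)).comp (measurable_A P t w)

lemma measurable_cN (P : Past V) (k : ℕ) (w v : V) :
    Measurable (fun ω : Env V => cN P ω k w v) := by
  unfold cN
  refine Finset.measurable_sum _ fun t _ => ?_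
  exact (Measurable.of_discrete (f := fun F : Finset V => F.card)).comp
    (meas_comp_countable (f := fun ω : Env V => (ls P ω t w).1)
      (g := fun D ω => goTo ω t w v D) (measurable_ls P t w).fst
      (fun D => measurable_goTo _ _ _ D))

lemma measurable_cD (P : Past V) (k : ℕ) (w : V) : Measurable (fun ω : Env V => cD P ω k w) := by
  unfold cD
  refine Finset.measurable_sum _ fun t _ => ?_
  exact (Measurable.of_discrete (f := fun F : Finset V => F.card)).comp (measurable_ls P t w).fst

lemma measurable_DS (P : Past V) (k : ℕ) (w : V) : Measurable (fun ω : Env V => DS P ω k w) := by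
  classical
  refine measurable_finset fun q => ?_
  have : {ω : Env V | q ∈ DS P ω k w}
      = if q.2 ≤ k then {ω : Env V | q.1 ∈ (ls P ω q.2 w).1} else ∅ := by
    ext ω
    obtain ⟨x, t⟩ := q
    simp only [DS, Finset.mem_biUnion, Finset.mem_range, Finset.mem_product,
      Finset.mem_singleton, Set.mem_ofPred_eq]
    by_cases ht : t ≤ k
    · simp only [ht, if_true, Set.mem_ofPred_eq]
      constructor
      · rintro ⟨a, _, h1, h2⟩
        rw [h2]; exact h1
      · intro h
        exact ⟨t, by omega, h, rfl⟩
    · simp only [ht, if_false, Set.mem_empty_iff_false, iff_false]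
      rintro ⟨a, h1, _, h2⟩
      omega
  rw [this]
  split_ifs
  · exact mem_measurable_finset (measurable_ls P q.2 w).fst q.1
  · exact MeasurableSet.empty

end Meas

end Pool.Agent.W581.Parking
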