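import Pool.Agent.W581.Parking.Lamp

set_option autoImplicit false

open MeasureTheory ProbabilityTheory Filter Topology
open scoped ENNReal unitInterval

namespace Pool.Agent.W581.Parking

instance : MeasurableSpace (ℤ →₀ ZMod 2) := ⊤
instance : DiscreteMeasurableSpace (ℤ →₀ ZMod 2) := ⟨fun _ => trivial⟩

theorem lamp_EV_le (p : I) (hp : (p : ℝ) < 1 / 2) (v : LL) :
    EV lampTriple p v ≤ ENNReal.ofReal (2 + Real.log ((1 - p) / (1 - 2 * p))) := by
  refine EV_le lampTriple p hp lampPast ?_ ?_ ?_ adj_r0 adj_r1 v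
  · intro w
    change lampKernel w (r0 w) = _
    rw [lampKernel_apply, if_pos (Or.inl rfl)]
  · intro w
    change lampKernel w (r1 w) = _
    rw [lampKernel_apply, if_pos (Or.inr rfl)]
  · intro u v h0 h1
    change lampKernel u v = _
    rw [lampKernel_apply, if_neg]
    rintro (h | h)
    · exact h0 h
    · exact h1 h

lemma coe_tendsto_half : Tendsto (fun p : I => (p : ℝ)) (𝓝[<] half) (𝓝[<] (1 / 2)) := by
  apply tendsto_nhdsWithin_iff.2
  constructor
  · have : Tendsto (fun p : I => (p : ℝ)) (𝓝 half) (𝓝 (half : ℝ)) :=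
      continuous_subtype_val.tendsto _
    exact this.mono_left nhdsWithin_le_nhds
  · filter_upwards [self_mem_nhdsWithin] with p hp
    have hp' : p < half := hp
    exact Set.mem_Iio.2 (Subtype.coe_lt_coe.2 hp')

instance half_neBot : (𝓝[<] half).NeBot := by
  have h0 : (0 : I) < half := by
    rw [← Subtype.coe_lt_coe]
    norm_num [half]
  exact nhdsLT_neBot_of_exists_lt ⟨0, h0⟩

theorem lamp_limit (v : LL) {γ : ℝ} (hγ : 0 < γ) :
    Tendsto (fun p : I => EV lampTriple p v * ENNReal.ofReal ((1 / 2 - (p : ℝ)) ^ γ))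
      (𝓝[<] half) (𝓝 0) := by
  have h1 : Tendsto (fun p : I => ENNReal.ofReal
      ((2 + Real.log ((1 - (p : ℝ)) / (1 - 2 * p))) * (1 / 2 - (p : ℝ)) ^ γ))
      (𝓝[<] half) (𝓝 0) := by
    have := (ENNReal.continuous_ofReal.tendsto _).comp ((limit_zero hγ).comp coe_tendsto_half)
    simpa [Function.comp_def] using this
  refine tendsto_of_tendsto_of_tendsto_of_le_of_le' tendsto_const_nhds h1 ?_ ?_
  · exact Eventually.of_forall fun _ => zero_le
  · filter_upwards [self_mem_nhdsWithin] with p hp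
    have hp' : (p : ℝ) < 1 / 2 := by
      have : p < half := hp
      exact Subtype.coe_lt_coe.2 this
    have h2 : 0 ≤ (1 / 2 - (p : ℝ)) ^ γ := Real.rpow_nonneg (by linarith) _
    rw [ENNReal.ofReal_mul' h2]
    exact mul_le_mul_left (lamp_EV_le p hp' v) _

end Pool.Agent.W581.Parking
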