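import Pool.Agent.W581.Parking.Defs

set_option autoImplicit false

open MeasureTheory ProbabilityTheory Filter Topology
open scoped ENNReal unitInterval

namespace Pool.Agent.W581.Parking

section General

variable {ι : Type} {X : ι → Type} [∀ i, MeasurableSpace (X i)]
  (μ : ∀ i, Measure (X i)) [∀ i, IsProbabilityMeasure (μ i)]

/-- A measurable function which depends only on the coordinates in `S` is measurable with respect to
the σ-algebra generated by these coordinates. -/
lemma measurable_of_dependsOn {β : Type} [MeasurableSpace β] [∀ i, Nonempty (X i)]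
    {f : (∀ i, X i) → β} (hf : Measurable f) {S : Set ι} (hS : DependsOn f S) :
    Measurable[⨆ i ∈ S, MeasurableSpace.comap (fun ω : ∀ i, X i => ω i) inferInstance] f := by
  classical
  let c : ∀ i, X i := fun i => Classical.arbitrary (X i)
  let g : (∀ i, X i) → (∀ i, X i) := fun ω i => if i ∈ S then ω i else c i
  have hg : @Measurable (∀ i, X i) (∀ i, X i)
      (⨆ i ∈ S, MeasurableSpace.comap (fun ω : ∀ i, X i => ω i) inferInstance)
      MeasurableSpace.pi g := by
    refine (@measurable_pi_iff (∀ i, X i) ι X
      (⨆ i ∈ S, MeasurableSpace.comap (fun ω : ∀ i, X i => ω i) inferInstance) _ g).2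
      (fun i => ?_)
    by_cases hi : i ∈ S
    · simp only [g, hi, if_true]
      exact measurable_iff_comap_le.2 (le_iSup₂_of_le i hi le_rfl)
    · simp only [g, hi, if_false]
      exact measurable_const
  have hfg : f = f ∘ g := by
    funext ω
    apply hS
    intro i hi
    simp [g, hi]
  rw [hfg]
  exact hf.comp hg

/-- Functions depending on disjoint sets of coordinates are independent. -/
lemma indepFun_of_dependsOn {β γ : Type} [MeasurableSpace β] [MeasurableSpace γ]
    {f : (∀ i, X i) → β} {g : (∀ i, X i) → γ} (hf : Measurable f)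
    (hg : Measurable g) {S T : Set ι} (hS : DependsOn f S) (hT : DependsOn g T)
    (hST : Disjoint S T) : IndepFun f g (Measure.infinitePi μ) := by
  have hne : ∀ i, Nonempty (X i) := fun i => nonempty_of_isProbabilityMeasure (μ i)
  have h0 : iIndepFun (fun (i : ι) (ω : ∀ i, X i) => ω i) (Measure.infinitePi μ) :=
    iIndepFun_infinitePi (P := μ) (X := fun i (x : X i) => x) (fun i => measurable_id)
  have h1 : iIndep (fun i => MeasurableSpace.comap (fun ω : ∀ i, X i => ω i) inferInstance)
      (Measure.infinitePi μ) := h0
  have h2 := indep_iSup_of_disjoint (fun i => (measurable_pi_apply i).comap_le) h1 hST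
  rw [IndepFun_iff_Indep]
  exact indep_of_indep_of_le_left (indep_of_indep_of_le_right h2
    (measurable_iff_comap_le.1 (measurable_of_dependsOn hg hT)))
    (measurable_iff_comap_le.1 (measurable_of_dependsOn hf hS))

/-- Resampling one coordinate. -/
lemma lintegral_resample [DecidableEq ι] (w : ι)
    {f : (∀ i, X i) → ℝ≥0∞} (hf : Measurable f) :
    ∫⁻ ω, f ω ∂(Measure.infinitePi μ)
      = ∫⁻ ω, ∫⁻ b, f (Function.update ω w b) ∂(μ w) ∂(Measure.infinitePi μ) := by
  have hne : ∀ i, Nonempty (X i) := fun i => nonempty_of_isProbabilityMeasure (μ i)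
  let b0 : X w := Classical.arbitrary (X w)
  let R : (∀ i, X i) → (∀ i, X i) := fun ω => Function.update ω w b0
  have hR : Measurable R := measurable_update_left
  have hRd : DependsOn R {w}ᶜ := by
    intro x y hxy
    funext i
    by_cases hi : i = w
    · subst hi; simp [R]
    · simp only [R, Function.update_of_ne hi]
      exact hxy i (by simpa using hi)
  have hEd : DependsOn (fun ω : ∀ i, X i => ω w) {w} := by
    intro x y hxy
    exact hxy w rfl
  have hind : IndepFun R (fun ω : ∀ i, X i => ω w) (Measure.infinitePi μ) :=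
    indepFun_of_dependsOn μ hR (measurable_pi_apply w) hRd hEd
      (Set.disjoint_left.2 fun x hx hx' => hx hx')
  have hmap : (Measure.infinitePi μ).map (fun ω => (R ω, ω w))
      = ((Measure.infinitePi μ).map R).prod (μ w) := by
    rw [(indepFun_iff_map_prod_eq_prod_map_map hR.aemeasurable
      (measurable_pi_apply w).aemeasurable).1 hind, Measure.infinitePi_map_eval]
  have hupd : Measurable (fun q : (∀ i, X i) × X w => Function.update q.1 w q.2) :=
    measurable_update'
  have hF : Measurable (fun q : (∀ i, X i) × X w => f (Function.update q.1 w q.2)) :=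
    hf.comp hupd
  have h1 : ∀ ω : ∀ i, X i, f ω = f (Function.update (R ω) w (ω w)) := by
    intro ω
    congr 1
    simp [R]
  have hpair : Measurable (fun ω : ∀ i, X i => (R ω, ω w)) := hR.prodMk (measurable_pi_apply w)
  calc ∫⁻ ω, f ω ∂(Measure.infinitePi μ)
      = ∫⁻ ω, f (Function.update (R ω) w (ω w)) ∂(Measure.infinitePi μ) := by
        exact lintegral_congr h1
    _ = ∫⁻ q, f (Function.update q.1 w q.2)
          ∂((Measure.infinitePi μ).map (fun ω => (R ω, ω w))) := by
        rw [lintegral_map hF hpair]
    _ = ∫⁻ q, f (Function.update q.1 w q.2) ∂(((Measure.infinitePi μ).map R).prod (μ w)) := by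
        rw [hmap]
    _ = ∫⁻ r, ∫⁻ b, f (Function.update r w b) ∂(μ w) ∂((Measure.infinitePi μ).map R) := by
        rw [lintegral_prod _ hF.aemeasurable]
    _ = ∫⁻ ω, ∫⁻ b, f (Function.update (R ω) w b) ∂(μ w) ∂(Measure.infinitePi μ) := by
        rw [lintegral_map hF.lintegral_prod_right' hR]
    _ = ∫⁻ ω, ∫⁻ b, f (Function.update ω w b) ∂(μ w) ∂(Measure.infinitePi μ) := by
        simp [R]

end General

end Pool.Agent.W581.Parking
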