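import Pool.Agent.W581.Parking.Expect

set_option autoImplicit false

open MeasureTheory ProbabilityTheory Filter Topology
open scoped ENNReal unitInterval

namespace Pool.Agent.W581.Parking

/-- generating function of the number of departures in terms of that of the number of visits -/
noncomputable def gR (p : ℝ) (φ : ℝ → ℝ) (s : ℝ) : ℝ :=
  φ s * (p * s + (1 - p) / s) - (1 - p) * φ 0 * (1 / s - 1)

/-- generating function of the number of visits up to time `k` -/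
noncomputable def fR (p : ℝ) : ℕ → ℝ → ℝ
  | 0 => fun _ => 1
  | k + 1 => fun s => (gR p (fR p k) ((1 + s) / 2)) ^ 2

/-- mean number of visits up to time `k` -/
noncomputable def mR (p : ℝ) : ℕ → ℝ
  | 0 => 0
  | k + 1 => mR p k - (1 - 2 * p) + (1 - p) * fR p k 0

variable {V : Type} [MeasurableSpace V] [DiscreteMeasurableSpace V] [Countable V]

lemma measurable_nat_comp {f : Env V → ℕ} (hf : Measurable f) (g : ℕ → ℝ≥0∞) :
    Measurable (fun ω => g (f ω)) :=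
  (Measurable.of_discrete (f := g)).comp hf

lemma gen_D (K : V → PMF V) (p : I) (P : Past V) (k : ℕ) (w : V) {r F u : ℝ} (hr0 : 0 < r)
    (hr1 : r ≤ 1) (hF0 : 0 ≤ F) (hu0 : 0 ≤ u)
    (hF : ∫⁻ ω, (ENNReal.ofReal r) ^ cA P ω k w ∂(law K p) = ENNReal.ofReal F)
    (hu : ∫⁻ ω, (0 : ℝ≥0∞) ^ cA P ω k w ∂(law K p) = ENNReal.ofReal u) :
    0 ≤ F * (p * r + (1 - p) / r) - (1 - p) * u * (1 / r - 1) ∧
    ∫⁻ ω, (ENNReal.ofReal r) ^ cD P ω k w ∂(law K p)
      = ENNReal.ofReal (F * (p * r + (1 - p) / r) - (1 - p) * u * (1 / r - 1)) := by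
  have hp0 : (0 : ℝ) ≤ p := p.2.1
  have hp1 : (p : ℝ) ≤ 1 := p.2.2
  have hmA := measurable_cA P k w
  set X : ℝ≥0∞ := ∫⁻ ω, (ENNReal.ofReal r) ^ (cA P ω k w - 1) ∂(law K p) with hX
  have hX1 : X ≤ 1 := by
    calc X ≤ ∫⁻ _, 1 ∂(law K p) := by
          apply lintegral_mono
          intro ω
          exact pow_le_one₀ zero_le (ENNReal.ofReal_le_one.2 hr1)
      _ = 1 := by simp
  have hXt : X ≠ ⊤ := ne_top_of_le_ne_top ENNReal.one_ne_top hX1
  obtain ⟨x, hx0, hx⟩ : ∃ x : ℝ, 0 ≤ x ∧ X = ENNReal.ofReal x :=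
    ⟨X.toReal, ENNReal.toReal_nonneg, (ENNReal.ofReal_toReal hXt).symm⟩
  have heq : ENNReal.ofReal r * X + ENNReal.ofReal u
      = ENNReal.ofReal F + ENNReal.ofReal r * ENNReal.ofReal u := by
    rw [← hF, ← hu, hX, ← lintegral_const_mul _ (measurable_nat_comp hmA
      (fun n => (ENNReal.ofReal r) ^ (n - 1))), ← lintegral_const_mul _ (measurable_nat_comp hmA
      (fun n => (0 : ℝ≥0∞) ^ n)), ← lintegral_add_left, ← lintegral_add_left]
    · refine lintegral_congr fun ω => ?_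
      rcases Nat.eq_zero_or_pos (cA P ω k w) with h | h
      · rw [h]; simp [add_comm]
      · obtain ⟨n, hn⟩ : ∃ n, cA P ω k w = n + 1 := ⟨cA P ω k w - 1, by omega⟩
        rw [hn]
        simp only [Nat.add_sub_cancel, ne_eq, Nat.add_eq_zero_iff, one_ne_zero, and_false,
          not_false_eq_true, zero_pow, add_zero, mul_zero]
        rw [pow_succ, mul_comm]
    · exact measurable_nat_comp hmA (fun n => (ENNReal.ofReal r) ^ n)
    · exact (measurable_nat_comp hmA (fun n => (ENNReal.ofReal r) ^ (n - 1))).const_mul _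
  rw [hx, ← ENNReal.ofReal_mul hr0.le, ← ENNReal.ofReal_mul hr0.le,
    ← ENNReal.ofReal_add (by positivity) hu0, ← ENNReal.ofReal_add hF0 (by positivity)] at heq
  have heq2 : r * x + u = F + r * u :=
    (ENNReal.ofReal_eq_ofReal_iff (by positivity) (by positivity)).1 heq
  have hx2 : x = (F + r * u - u) / r := by
    field_simp
    linarith
  have hval : (p : ℝ) * (r * F) + (1 - p) * x
      = F * (p * r + (1 - p) / r) - (1 - p) * u * (1 / r - 1) := by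
    rw [hx2]
    field_simp
    ring
  have hnn : 0 ≤ (1 - p : ℝ) * x := mul_nonneg (by linarith) hx0
  refine ⟨?_, ?_⟩
  · rw [← hval]; positivity
  rw [lintegral_cD K p P k w (fun n => (ENNReal.ofReal r) ^ n)]
  have h1 : ∀ ω : Env V, (ENNReal.ofReal r) ^ (cA P ω k w + 1)
      = (ENNReal.ofReal r) * (ENNReal.ofReal r) ^ cA P ω k w := fun ω => by
    rw [pow_succ, mul_comm]
  simp_rw [h1]
  have hmr := measurable_nat_comp hmA (fun n => (ENNReal.ofReal r) ^ n)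
  rw [lintegral_add_left ((hmr.const_mul _).const_mul _), lintegral_const_mul _ (hmr.const_mul _),
    lintegral_const_mul _ hmr, lintegral_const_mul _ (measurable_nat_comp hmA
      (fun n => (ENNReal.ofReal r) ^ (n - 1))), hF, ← hX, hx, ← ENNReal.ofReal_mul hr0.le,
    ← ENNReal.ofReal_mul hp0, ← ENNReal.ofReal_mul (by linarith),
    ← ENNReal.ofReal_add (by positivity) hnn, hval]

lemma mean_D (K : V → PMF V) (p : I) (P : Past V) (k : ℕ) (w : V) {m u : ℝ}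
    (hm0 : 0 ≤ m) (hu0 : 0 ≤ u)
    (hm : ∫⁻ ω, (cA P ω k w : ℝ≥0∞) ∂(law K p) = ENNReal.ofReal m)
    (hu : ∫⁻ ω, (0 : ℝ≥0∞) ^ cA P ω k w ∂(law K p) = ENNReal.ofReal u) :
    0 ≤ m - (1 - 2 * p) + (1 - p) * u ∧
    ∫⁻ ω, (cD P ω k w : ℝ≥0∞) ∂(law K p)
      = ENNReal.ofReal (m - (1 - 2 * p) + (1 - p) * u) := by
  have hp0 : (0 : ℝ) ≤ p := p.2.1
  have hp1 : (p : ℝ) ≤ 1 := p.2.2
  have hmA := measurable_cA P k w
  set Y : ℝ≥0∞ := ∫⁻ ω, ((cA P ω k w - 1 : ℕ) : ℝ≥0∞) ∂(law K p) with hY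
  have heq : Y + 1 = ENNReal.ofReal m + ENNReal.ofReal u := by
    have h1 : (1 : ℝ≥0∞) = ∫⁻ _, 1 ∂(law K p) := by simp
    rw [← hm, ← hu, hY, h1, ← lintegral_add_left, ← lintegral_add_left]
    · refine lintegral_congr fun ω => ?_
      rcases Nat.eq_zero_or_pos (cA P ω k w) with h | h
      · rw [h]; simp
      · obtain ⟨n, hn⟩ : ∃ n, cA P ω k w = n + 1 := ⟨cA P ω k w - 1, by omega⟩
        rw [hn]
        simp
    · exact measurable_nat_comp hmA (fun n => (n : ℝ≥0∞))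
    · exact measurable_nat_comp hmA (fun n => ((n - 1 : ℕ) : ℝ≥0∞))
  have hYt : Y ≠ ⊤ := by
    intro h
    rw [h, top_add, ← ENNReal.ofReal_add hm0 hu0] at heq
    exact ENNReal.ofReal_ne_top heq.symm
  obtain ⟨y, hy0, hy⟩ : ∃ y : ℝ, 0 ≤ y ∧ Y = ENNReal.ofReal y :=
    ⟨Y.toReal, ENNReal.toReal_nonneg, (ENNReal.ofReal_toReal hYt).symm⟩
  rw [hy, ← ENNReal.ofReal_one, ← ENNReal.ofReal_add hy0 zero_le_one,
    ← ENNReal.ofReal_add hm0 hu0] at heq
  have heq2 : y + 1 = m + u :=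
    (ENNReal.ofReal_eq_ofReal_iff (by positivity) (by positivity)).1 heq
  have hval : (p : ℝ) * (m + 1) + (1 - p) * y = m - (1 - 2 * p) + (1 - p) * u := by
    have : y = m + u - 1 := by linarith
    rw [this]; ring
  have hnn : 0 ≤ (1 - p : ℝ) * y := mul_nonneg (by linarith) hy0
  refine ⟨?_, ?_⟩
  · rw [← hval]; positivity
  rw [lintegral_cD K p P k w (fun n => (n : ℝ≥0∞))]
  simp_rw [Nat.cast_add, Nat.cast_one]
  have hmr := measurable_nat_comp hmA (fun n => (n : ℝ≥0∞))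
  rw [lintegral_add_left ((hmr.add_const _).const_mul _),
    lintegral_const_mul _ (hmr.add_const _), lintegral_add_left hmr,
    lintegral_const_mul _ (measurable_nat_comp hmA (fun n => ((n - 1 : ℕ) : ℝ≥0∞))), hm, ← hY, hy]
  simp only [lintegral_const, measure_univ, mul_one]
  rw [← ENNReal.ofReal_one, ← ENNReal.ofReal_add hm0 zero_le_one, ← ENNReal.ofReal_mul hp0,
    ← ENNReal.ofReal_mul (by linarith), ← ENNReal.ofReal_add (by positivity) hnn, hval]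

/-- the recursion -/
theorem main_rec [Nonempty V] (K : V → PMF V) (p : I) (P : Past V)
    (h0 : ∀ w, K w (P.r0 w) = 2⁻¹) (h1 : ∀ w, K w (P.r1 w) = 2⁻¹) (k : ℕ) :
    (∀ s : ℝ, 0 ≤ s → s ≤ 1 → 0 ≤ fR p k s ∧ fR p k s ≤ 1 ∧
      ∀ v, ∫⁻ ω, (ENNReal.ofReal s) ^ cA P ω k v ∂(law K p) = ENNReal.ofReal (fR p k s)) ∧
    0 ≤ mR p k ∧
    (∀ v, ∫⁻ ω, (cA P ω k v : ℝ≥0∞) ∂(law K p) = ENNReal.ofReal (mR p k)) ∧
    (∀ r : ℝ, 0 < r → r ≤ 1 → 0 ≤ gR p (fR p k) r) := by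
  have hG : ∀ k, (∀ s : ℝ, 0 ≤ s → s ≤ 1 → 0 ≤ fR p k s ∧ fR p k s ≤ 1 ∧
      ∀ v, ∫⁻ ω, (ENNReal.ofReal s) ^ cA P ω k v ∂(law K p) = ENNReal.ofReal (fR p k s)) →
      ∀ r : ℝ, 0 < r → r ≤ 1 → 0 ≤ gR p (fR p k) r ∧
        ∀ w, ∫⁻ ω, (ENNReal.ofReal r) ^ cD P ω k w ∂(law K p)
          = ENNReal.ofReal (gR p (fR p k) r) := by
    intro k ihf r hr0 hr1
    have hu0 : 0 ≤ fR p k 0 := (ihf 0 le_rfl zero_le_one).1
    have hu : ∀ v, ∫⁻ ω, (0 : ℝ≥0∞) ^ cA P ω k v ∂(law K p) = ENNReal.ofReal (fR p k 0) := by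
      intro v
      have := (ihf 0 le_rfl zero_le_one).2.2 v
      rwa [ENNReal.ofReal_zero] at this
    have hF := ihf r hr0.le hr1
    have hD : ∀ w, 0 ≤ gR p (fR p k) r ∧
        ∫⁻ ω, (ENNReal.ofReal r) ^ cD P ω k w ∂(law K p)
          = ENNReal.ofReal (gR p (fR p k) r) := fun w =>
      gen_D K p P k w hr0 hr1 hF.1 hu0 (hF.2.2 w) (hu w)
    exact ⟨(hD (Classical.arbitrary V)).1, fun w => (hD w).2⟩
  induction k with
  | zero =>
    have hf : ∀ s : ℝ, 0 ≤ s → s ≤ 1 → 0 ≤ fR p 0 s ∧ fR p 0 s ≤ 1 ∧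
        ∀ v, ∫⁻ ω, (ENNReal.ofReal s) ^ cA P ω 0 v ∂(law K p) = ENNReal.ofReal (fR p 0 s) := by
      simp [fR, cA_zero]
    exact ⟨hf, by simp [mR], by simp [mR, cA_zero], fun r hr0 hr1 => (hG 0 hf r hr0 hr1).1⟩
  | succ k ih =>
    obtain ⟨ihf, ihm0, ihm, -⟩ := ih
    have hu0 : 0 ≤ fR p k 0 := (ihf 0 le_rfl zero_le_one).1
    have hu : ∀ v, ∫⁻ ω, (0 : ℝ≥0∞) ^ cA P ω k v ∂(law K p) = ENNReal.ofReal (fR p k 0) := by
      intro v
      have := (ihf 0 le_rfl zero_le_one).2.2 v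
      rwa [ENNReal.ofReal_zero] at this
    have hf : ∀ s : ℝ, 0 ≤ s → s ≤ 1 → 0 ≤ fR p (k + 1) s ∧ fR p (k + 1) s ≤ 1 ∧
        ∀ v, ∫⁻ ω, (ENNReal.ofReal s) ^ cA P ω (k + 1) v ∂(law K p)
          = ENNReal.ofReal (fR p (k + 1) s) := by
      intro s hs0 hs1
      have hr0 : 0 < (1 + s) / 2 := by linarith
      have hr1 : (1 + s) / 2 ≤ 1 := by linarith
      obtain ⟨hg0, hD⟩ := hG k ihf _ hr0 hr1
      have hs2 : (1 + ENNReal.ofReal s) / 2 = ENNReal.ofReal ((1 + s) / 2) := by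
        rw [ENNReal.ofReal_div_of_pos (by norm_num), ENNReal.ofReal_add zero_le_one hs0,
          ENNReal.ofReal_one]
        norm_num
      have hval : ∀ v, ∫⁻ ω, (ENNReal.ofReal s) ^ cA P ω (k + 1) v ∂(law K p)
          = ENNReal.ofReal (gR p (fR p k) ((1 + s) / 2))
            * ENNReal.ofReal (gR p (fR p k) ((1 + s) / 2)) := by
        intro v
        rw [lintegral_pow_cA K p P h0 h1 k v, hs2, hD, hD]
      have hle : gR p (fR p k) ((1 + s) / 2) ≤ 1 := by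
        rw [← ENNReal.ofReal_le_one, ← hD (Classical.arbitrary V)]
        calc ∫⁻ ω, (ENNReal.ofReal ((1 + s) / 2)) ^ cD P ω k (Classical.arbitrary V) ∂(law K p)
            ≤ ∫⁻ _, 1 ∂(law K p) := by
              apply lintegral_mono
              intro ω
              exact pow_le_one₀ zero_le (ENNReal.ofReal_le_one.2 hr1)
          _ = 1 := by simp
      have hdef : fR p (k + 1) s = (gR p (fR p k) ((1 + s) / 2)) ^ 2 := rfl
      refine ⟨?_, ?_, ?_⟩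
      · rw [hdef]; positivity
      · rw [hdef]; exact pow_le_one₀ hg0 hle
      · intro v
        rw [hval v, hdef, ← ENNReal.ofReal_mul hg0, sq]
    have hDm : ∀ w, 0 ≤ mR p (k + 1) ∧ ∫⁻ ω, (cD P ω k w : ℝ≥0∞) ∂(law K p)
        = ENNReal.ofReal (mR p (k + 1)) := fun w =>
      mean_D K p P k w ihm0 hu0 (ihm w) (hu w)
    refine ⟨hf, (hDm (Classical.arbitrary V)).1, ?_, fun r hr0 hr1 => (hG (k + 1) hf r hr0 hr1).1⟩
    intro v
    rw [lintegral_cA K p P h0 h1 k v]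
    simp_rw [ENNReal.div_eq_inv_mul]
    rw [lintegral_const_mul _ (measurable_nat_comp (measurable_cD P k _) (fun n => (n : ℝ≥0∞))),
      lintegral_const_mul _ (measurable_nat_comp (measurable_cD P k _) (fun n => (n : ℝ≥0∞))),
      (hDm _).2, (hDm _).2, ← ENNReal.div_eq_inv_mul, ENNReal.add_halves]

end Pool.Agent.W581.Parking
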